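import Pool.Agent.EPL.Defs

/-!
# The dihedral angle of a realized tetrahedron
-/

namespace Pool.Agent.EPL

variable {V : Type} [Fintype V] [DecidableEq V]

/-- The component of `w` orthogonal to `d`. -/
noncomputable def orth (d w : EuclideanSpace ℝ (Fin 3)) : EuclideanSpace ℝ (Fin 3) :=
  w - (inner ℝ d w / inner ℝ d d) • d

theorem inner_orth (d w w' : EuclideanSpace ℝ (Fin 3)) (hd : d ≠ 0) :
    inner ℝ (orth d w) (orth d w') =
      inner ℝ w w' - inner ℝ d w * inner ℝ d w' / inner ℝ d d := by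
  have h : inner ℝ d d ≠ (0 : ℝ) := inner_self_ne_zero.2 hd
  unfold orth
  rw [inner_sub_left, inner_sub_right, inner_sub_right, inner_smul_left, inner_smul_left,
    inner_smul_right, inner_smul_right, real_inner_comm d w]
  simp only [conj_trivial]
  field_simp
  ring

omit [Fintype V] [DecidableEq V] in
theorem ip_eq_inner (z : Sym2 V → ℝ) (P : V → EuclideanSpace ℝ (Fin 3)) {u v x : V}
    (huv : z s(u, v) = dist (P u) (P v) ^ 2) (hux : z s(u, x) = dist (P u) (P x) ^ 2)
    (hvx : z s(v, x) = dist (P v) (P x) ^ 2) :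
    ip z u v x = inner ℝ (P v - P u) (P x - P u) := by
  unfold ip
  rw [huv, hux, hvx, dist_comm (P u) (P v), dist_comm (P u) (P x), dist_eq_norm, dist_eq_norm,
    dist_eq_norm]
  have e : P v - P x = (P v - P u) - (P x - P u) := by abel
  have h := norm_sub_sq_real (P v - P u) (P x - P u)
  rw [e, h]
  ring

omit [Fintype V] [DecidableEq V] in
/-- `dih` is the angle between the components of `x - u` and `y - u` orthogonal to `v - u`. -/
theorem dih_eq_angle (z : Sym2 V → ℝ) (P : V → EuclideanSpace ℝ (Fin 3)) {u v x y : V}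
    (huv : z s(u, v) = dist (P u) (P v) ^ 2) (hux : z s(u, x) = dist (P u) (P x) ^ 2)
    (huy : z s(u, y) = dist (P u) (P y) ^ 2) (hvx : z s(v, x) = dist (P v) (P x) ^ 2)
    (hvy : z s(v, y) = dist (P v) (P y) ^ 2) (hxy : z s(x, y) = dist (P x) (P y) ^ 2)
    (hne : P u ≠ P v) :
    dih z u v x y =
      InnerProductGeometry.angle (orth (P v - P u) (P x - P u)) (orth (P v - P u) (P y - P u)) := by
  have hd : P v - P u ≠ 0 := sub_ne_zero.2 hne.symm
  have hdd : 0 < inner ℝ (P v - P u) (P v - P u) := by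
    rw [real_inner_self_eq_norm_sq]
    have := norm_pos_iff.2 hd
    positivity
  have zuv : z s(u, v) = inner ℝ (P v - P u) (P v - P u) := by
    rw [huv, real_inner_self_eq_norm_sq, dist_comm, dist_eq_norm]
  have zux : z s(u, x) = inner ℝ (P x - P u) (P x - P u) := by
    rw [hux, real_inner_self_eq_norm_sq, dist_comm, dist_eq_norm]
  have zuy : z s(u, y) = inner ℝ (P y - P u) (P y - P u) := by
    rw [huy, real_inner_self_eq_norm_sq, dist_comm, dist_eq_norm]
  unfold dih InnerProductGeometry.angle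
  rw [ip_eq_inner z P huv hux hvx, ip_eq_inner z P huv huy hvy, ip_eq_inner z P hux huy hxy,
    zuv, zux, zuy]
  set d := P v - P u
  set a := P x - P u
  set b := P y - P u
  have key : ∀ w w' : EuclideanSpace ℝ (Fin 3),
      inner ℝ d d * inner ℝ w w' - inner ℝ d w * inner ℝ d w' =
        inner ℝ d d * inner ℝ (orth d w) (orth d w') := by
    intro w w'
    rw [inner_orth d w w' hd]
    field_simp
  have e1 : inner ℝ d d * inner ℝ a a - inner ℝ d a ^ 2 =
      inner ℝ d d * ‖orth d a‖ ^ 2 := by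
    rw [sq (inner ℝ d a), key, real_inner_self_eq_norm_sq (orth d a)]
  have e2 : inner ℝ d d * inner ℝ b b - inner ℝ d b ^ 2 =
      inner ℝ d d * ‖orth d b‖ ^ 2 := by
    rw [sq (inner ℝ d b), key, real_inner_self_eq_norm_sq (orth d b)]
  rw [e1, e2, key a b, Real.sqrt_mul hdd.le, Real.sqrt_mul hdd.le,
    Real.sqrt_sq (norm_nonneg _), Real.sqrt_sq (norm_nonneg _)]
  congr 1
  have e3 : √(inner ℝ d d) * √(inner ℝ d d) = inner ℝ d d := Real.mul_self_sqrt hdd.le
  have e4 : √(inner ℝ d d) * ‖orth d a‖ * (√(inner ℝ d d) * ‖orth d b‖) =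
      inner ℝ d d * (‖orth d a‖ * ‖orth d b‖) := by
    calc √(inner ℝ d d) * ‖orth d a‖ * (√(inner ℝ d d) * ‖orth d b‖)
        = (√(inner ℝ d d) * √(inner ℝ d d)) * (‖orth d a‖ * ‖orth d b‖) := by ring
      _ = _ := by rw [e3]
  rw [e4]
  exact mul_div_mul_left _ _ hdd.ne'

end Pool.Agent.EPL
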