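import Pool.Agent.EPL.Defs

/-!
# Sums over the 3-simplices which contain an edge
-/

namespace Pool.Agent.EPL

variable {V : Type} [Fintype V] [DecidableEq V]

omit [Fintype V] in
/-- The vertices of a 3-simplex are different. -/
theorem distinct {T : Finset (Finset V)} (hT : ∀ σ ∈ T, σ.card = 4) {u v x y : V}
    (h : ({u, v, x, y} : Finset V) ∈ T) :
    u ≠ v ∧ u ≠ x ∧ u ≠ y ∧ v ≠ x ∧ v ≠ y ∧ x ≠ y := by
  have hc := hT _ h
  refine ⟨?_, ?_, ?_, ?_, ?_, ?_⟩ <;> intro he <;> subst he
  · have : ({u, u, x, y} : Finset V).card ≤ 3 := by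
      rw [Finset.insert_idem]
      exact Finset.card_le_three
    omega
  · have e : ({u, v, u, y} : Finset V) = {u, v, y} := by
      ext a
      simp only [Finset.mem_insert, Finset.mem_singleton]
      tauto
    rw [e] at hc
    have := Finset.card_le_three (a := u) (b := v) (c := y)
    omega
  · have e : ({u, v, x, u} : Finset V) = {u, v, x} := by
      ext a
      simp only [Finset.mem_insert, Finset.mem_singleton]
      tauto
    rw [e] at hc
    have := Finset.card_le_three (a := u) (b := v) (c := x)
    omega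
  · have e : ({u, v, v, y} : Finset V) = {u, v, y} := by
      ext a
      simp only [Finset.mem_insert, Finset.mem_singleton]
      tauto
    rw [e] at hc
    have := Finset.card_le_three (a := u) (b := v) (c := y)
    omega
  · have e : ({u, v, x, v} : Finset V) = {u, v, x} := by
      ext a
      simp only [Finset.mem_insert, Finset.mem_singleton]
      tauto
    rw [e] at hc
    have := Finset.card_le_three (a := u) (b := v) (c := x)
    omega
  · have e : ({u, v, x, x} : Finset V) = {u, v, x} := by
      ext a
      simp only [Finset.mem_insert, Finset.mem_singleton]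
      tauto
    rw [e] at hc
    have := Finset.card_le_three (a := u) (b := v) (c := x)
    omega

omit [Fintype V] in
/-- The two other vertices. -/
theorem exists_pair {σ : Finset V} (h4 : σ.card = 4) {u v : V} (hu : u ∈ σ) (hv : v ∈ σ)
    (huv : u ≠ v) : ∃ x y : V, x ≠ y ∧ σ = {u, v, x, y} ∧
      ∀ a b : V, ({u, v, a, b} : Finset V) = σ ↔ (a = x ∧ b = y) ∨ (a = y ∧ b = x) := by
  have h2 : ((σ.erase u).erase v).card = 2 := by
    rw [Finset.card_erase_of_mem (Finset.mem_erase.2 ⟨huv.symm, hv⟩),
      Finset.card_erase_of_mem hu, h4]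
  obtain ⟨x, y, hxy, he⟩ := Finset.card_eq_two.1 h2
  have hx : x ∈ (σ.erase u).erase v := by rw [he]; simp
  have hy : y ∈ (σ.erase u).erase v := by rw [he]; simp
  simp only [Finset.mem_erase] at hx hy
  have hσ : σ = {u, v, x, y} := by
    ext a
    have := Finset.ext_iff.1 he a
    simp only [Finset.mem_erase, Finset.mem_insert, Finset.mem_singleton] at this ⊢
    by_cases h1 : a = u
    · subst h1
      simp [hu]
    · by_cases h3 : a = v
      · subst h3
        simp [hv]
      · simp only [h1, h3, false_or, ne_eq, not_false_eq_true, true_and] at this ⊢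
        exact this
  refine ⟨x, y, hxy, hσ, fun a b => ⟨fun h => ?_, fun h => ?_⟩⟩
  · have hcard : ({u, v, a, b} : Finset V).card = 4 := by rw [h, h4]
    obtain ⟨_, h5, h6, h7, h8, h9⟩ := distinct (T := {({u, v, a, b} : Finset V)})
      (fun σ hσ => by rw [Finset.mem_singleton] at hσ; rw [hσ, hcard]) (Finset.mem_singleton_self _)
    have ha : a ∈ (σ.erase u).erase v := by
      rw [← h]
      simp [h5.symm, h7.symm]
    have hb : b ∈ (σ.erase u).erase v := by
      rw [← h]
      simp [h6.symm, h8.symm]
    rw [he] at ha hb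
    simp only [Finset.mem_insert, Finset.mem_singleton] at ha hb
    rcases ha with rfl | rfl <;> rcases hb with rfl | rfl
    · exact absurd rfl h9
    · exact Or.inl ⟨rfl, rfl⟩
    · exact Or.inr ⟨rfl, rfl⟩
    · exact absurd rfl h9
  · rcases h with ⟨rfl, rfl⟩ | ⟨rfl, rfl⟩
    · exact hσ.symm
    · rw [hσ]
      ext c
      simp only [Finset.mem_insert, Finset.mem_singleton]
      tauto

open Classical in
theorem sum_pairs {T : Finset (Finset V)} (hT : ∀ σ ∈ T, σ.card = 4) {u v : V} (huv : u ≠ v)
    (g : Finset V → ℝ) :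
    ∑ x : V, ∑ y : V, (if ({u, v, x, y} : Finset V) ∈ T then g {u, v, x, y} else 0) =
      2 * ∑ σ ∈ T.filter (fun σ => u ∈ σ ∧ v ∈ σ), g σ := by
  have h1 : ∀ x y : V, (if ({u, v, x, y} : Finset V) ∈ T then g {u, v, x, y} else 0) =
      ∑ σ ∈ T.filter (fun σ => u ∈ σ ∧ v ∈ σ), if ({u, v, x, y} : Finset V) = σ then g σ else 0 := by
    intro x y
    rw [Finset.sum_ite_eq]
    congr 1
    simp
  simp only [h1]
  rw [Finset.sum_congr rfl fun x _ => Finset.sum_comm, Finset.sum_comm, Finset.mul_sum]
  refine Finset.sum_congr rfl fun σ hσ => ?_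
  rw [Finset.mem_filter] at hσ
  obtain ⟨x, y, hxy, _, hiff⟩ := exists_pair (hT σ hσ.1) hσ.2.1 hσ.2.2 huv
  have h2 : ∀ a b : V, (if ({u, v, a, b} : Finset V) = σ then g σ else 0) =
      (if a = x then (if b = y then g σ else 0) else 0) +
        (if a = y then (if b = x then g σ else 0) else 0) := by
    intro a b
    by_cases ha : a = x
    · subst ha
      by_cases hb : b = y
      · subst hb
        rw [if_pos ((hiff _ _).2 (Or.inl ⟨rfl, rfl⟩))]
        simp [hxy]
      · rw [if_neg (fun h => by
          rcases (hiff _ _).1 h with ⟨_, h3⟩ | ⟨h3, _⟩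
          · exact hb h3
          · exact hxy h3)]
        simp [hb, hxy]
    · by_cases ha' : a = y
      · subst ha'
        by_cases hb : b = x
        · subst hb
          rw [if_pos ((hiff _ _).2 (Or.inr ⟨rfl, rfl⟩))]
          simp [ha]
        · rw [if_neg (fun h => by
            rcases (hiff _ _).1 h with ⟨h3, _⟩ | ⟨_, h3⟩
            · exact ha h3
            · exact hb h3)]
          simp [hb, ha]
      · rw [if_neg (fun h => by
          rcases (hiff _ _).1 h with ⟨h3, _⟩ | ⟨h3, _⟩
          · exact ha h3
          · exact ha' h3)]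
        simp [ha, ha']
  simp only [h2, Finset.sum_add_distrib, Finset.sum_ite_eq', Finset.sum_ite_irrel,
    Finset.sum_const_zero, Finset.mem_univ, if_true]
  ring

end Pool.Agent.EPL
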