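import Pool.Agent.EPL.Scal
import Pool.Agent.EPL.Count

/-!
# Complexes with two vertices of each colour in every 3-simplex
-/

namespace Pool.Agent.EPL

variable {V : Type} [Fintype V] [DecidableEq V]

/-- Squared length `x` for the edges with two ends of the same colour, `1` for the other ones. -/
noncomputable def zA (W : Finset V) (x : ℝ) : Sym2 V → ℝ :=
  Sym2.lift ⟨fun u v => if (u ∈ W ↔ v ∈ W) then x else 1, fun u v => by simp only [iff_comm]⟩

/-- The angle at a one-coloured edge. -/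
noncomputable def alA (x : ℝ) : ℝ := Real.arccos ((4 - 3 * x) / (4 - x))

/-- The angle at a two-coloured edge. -/
noncomputable def gaA (x : ℝ) : ℝ := Real.arccos (x / (4 - x))

theorem exists_root_A (p s : ℕ) : ∃ x : ℝ, 0 < x ∧ x < 2 ∧
    1 - p * alA x / (2 * Real.pi) = x * √x * (1 - s * gaA x / (2 * Real.pi)) := by
  have hcont : ContinuousOn (fun x : ℝ => (1 - p * alA x / (2 * Real.pi)) -
      x * √x * (1 - s * gaA x / (2 * Real.pi))) (Set.Icc 0 2) := by
    have h1 : ContinuousOn alA (Set.Icc 0 2) := by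
      unfold alA
      refine Real.continuous_arccos.comp_continuousOn ?_
      refine ContinuousOn.div (by fun_prop) (by fun_prop) ?_
      intro x hx
      have := hx.2
      linarith
    have h2 : ContinuousOn gaA (Set.Icc 0 2) := by
      unfold gaA
      refine Real.continuous_arccos.comp_continuousOn ?_
      refine ContinuousOn.div (by fun_prop) (by fun_prop) ?_
      intro x hx
      have := hx.2
      linarith
    have h3 : ContinuousOn (fun x : ℝ => √x) (Set.Icc 0 2) := Real.continuous_sqrt.continuousOn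
    exact (continuousOn_const.sub ((continuousOn_const.mul h1).div_const _)).sub
      ((continuousOn_id.mul h3).mul (continuousOn_const.sub
        ((continuousOn_const.mul h2).div_const _)))
  have h := intermediate_value_Ioo' (by norm_num : (0 : ℝ) ≤ 2) hcont
  have hpi := Real.pi_pos
  have h0 : (0 : ℝ) ∈ Set.Ioo ((fun x : ℝ => (1 - p * alA x / (2 * Real.pi)) -
      x * √x * (1 - s * gaA x / (2 * Real.pi))) 2) ((fun x : ℝ => (1 - p * alA x / (2 * Real.pi)) -
      x * √x * (1 - s * gaA x / (2 * Real.pi))) 0) := by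
    constructor
    · simp only
      have e1 : alA 2 = Real.pi := by
        unfold alA
        norm_num
      have e2 : gaA 2 = 0 := by
        unfold gaA
        norm_num
      rw [e1, e2]
      have e3 : (1 : ℝ) < √2 := by
        rw [Real.lt_sqrt (by norm_num)]
        norm_num
      have e4 : (0 : ℝ) ≤ p * Real.pi / (2 * Real.pi) := by positivity
      have e5 : 2 * √2 * (1 - (s : ℝ) * 0 / (2 * Real.pi)) = 2 * √2 := by ring
      rw [e5]
      linarith
    · simp only
      have e1 : alA 0 = 0 := by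
        unfold alA
        norm_num
      rw [e1]
      simp
  obtain ⟨x, hx, hx0⟩ := h h0
  exact ⟨x, hx.1, hx.2, by simp only at hx0; linarith⟩

omit [Fintype V] in
theorem pattern_A {T : Finset (Finset V)} (hT : ∀ σ ∈ T, σ.card = 4) {W : Finset V}
    (hW : ∀ σ ∈ T, (σ ∩ W).card = 2) {u v x y : V} (h : ({u, v, x, y} : Finset V) ∈ T) :
    (u ∈ W ∧ v ∈ W ∧ x ∉ W ∧ y ∉ W) ∨ (u ∉ W ∧ v ∉ W ∧ x ∈ W ∧ y ∈ W) ∨
    (u ∈ W ∧ v ∉ W ∧ x ∈ W ∧ y ∉ W) ∨ (u ∉ W ∧ v ∈ W ∧ x ∉ W ∧ y ∈ W) ∨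
    (u ∈ W ∧ v ∉ W ∧ x ∉ W ∧ y ∈ W) ∨ (u ∉ W ∧ v ∈ W ∧ x ∈ W ∧ y ∉ W) := by
  obtain ⟨h1, h2, h3, h4, h5, h6⟩ := distinct hT h
  have hc := hW _ h
  by_cases hu : u ∈ W <;> by_cases hv : v ∈ W <;> by_cases hx : x ∈ W <;> by_cases hy : y ∈ W <;>
    simp_all [Finset.insert_inter_of_mem, Finset.insert_inter_of_notMem,
      Finset.singleton_inter_of_mem, Finset.singleton_inter_of_notMem]

/-- the four points -/
noncomputable def ptsA (x : ℝ) : Fin 4 → EuclideanSpace ℝ (Fin 3) :=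
  ![!₂[√x / 2, 0, √(1 - x / 2) / 2], !₂[-(√x / 2), 0, √(1 - x / 2) / 2],
    !₂[0, √x / 2, -(√(1 - x / 2) / 2)], !₂[0, -(√x / 2), -(√(1 - x / 2) / 2)]]

theorem ptsA_dist {x : ℝ} (hx : 0 < x) (hx2 : x < 2) (i j : Fin 4) (hij : i ≠ j) :
    dist (ptsA x i) (ptsA x j) ^ 2 = if ((i : ℕ) < 2 ↔ (j : ℕ) < 2) then x else 1 := by
  have e1 : √x ^ 2 = x := Real.sq_sqrt hx.le
  have e2 : √(1 - x / 2) ^ 2 = 1 - x / 2 := Real.sq_sqrt (by linarith)
  have e3 : |√x| = √x := abs_of_nonneg (Real.sqrt_nonneg _)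
  rw [EuclideanSpace.dist_eq, Real.sq_sqrt (by positivity), Fin.sum_univ_three]
  fin_cases i <;> fin_cases j <;> first
    | exact absurd rfl hij
    | (simp [ptsA, Real.dist_eq, sq_abs, e3]
       nlinarith [e1, e2])

theorem ptsA_indep {x : ℝ} (hx : 0 < x) (hx2 : x < 2) : AffineIndependent ℝ (ptsA x) := by
  have e1 : 0 < √x := Real.sqrt_pos.2 hx
  have e2 : 0 < √(1 - x / 2) := Real.sqrt_pos.2 (by linarith)
  rw [affineIndependent_iff]
  intro t w hw hs i hi
  classical
  set w' : Fin 4 → ℝ := fun i => if i ∈ t then w i else 0 with hw'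
  have h1 : ∑ i, w' i = 0 := by
    rw [← hw, hw', Finset.sum_ite_mem, Finset.univ_inter]
  have h2 : ∑ i, w' i • ptsA x i = 0 := by
    rw [← hs, hw']
    simp only [ite_smul, zero_smul]
    rw [Finset.sum_ite_mem, Finset.univ_inter]
  rw [Fin.sum_univ_four] at h1 h2
  have c0 := congrArg (fun v : EuclideanSpace ℝ (Fin 3) => v 0) h2
  have c1 := congrArg (fun v : EuclideanSpace ℝ (Fin 3) => v 1) h2
  have c2 := congrArg (fun v : EuclideanSpace ℝ (Fin 3) => v 2) h2
  simp [ptsA] at c0 c1 c2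
  have d0 : w' 0 = w' 1 := by
    have : √x * (w' 0 - w' 1) = 0 := by linarith
    rcases mul_eq_zero.1 this with h | h
    · exact absurd h e1.ne'
    · linarith
  have d1 : w' 2 = w' 3 := by
    have : √x * (w' 2 - w' 3) = 0 := by linarith
    rcases mul_eq_zero.1 this with h | h
    · exact absurd h e1.ne'
    · linarith
  have d2 : w' 0 + w' 1 = w' 2 + w' 3 := by
    have : √(1 - x / 2) * (w' 0 + w' 1 - w' 2 - w' 3) = 0 := by linarith
    rcases mul_eq_zero.1 this with h | h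
    · exact absurd h e2.ne'
    · linarith
  have hall : ∀ j, w' j = 0 := by
    intro j
    fin_cases j <;> simp <;> linarith
  have := hall i
  rw [hw'] at this
  simpa [hi] using this

theorem isMetric_A {T : Finset (Finset V)} (hT : ∀ σ ∈ T, σ.card = 4) {W : Finset V}
    (hW : ∀ σ ∈ T, (σ ∩ W).card = 2) {x : ℝ} (hx : 0 < x) (hx2 : x < 2) :
    IsMetric T (zA W x) := by
  intro σ hσ
  obtain ⟨a, b, hab, hσW⟩ := Finset.card_eq_two.1 (hW σ hσ)
  have hd : (σ \ W).card = 2 := by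
    have := Finset.card_sdiff_add_card_inter σ W
    rw [hT σ hσ, hW σ hσ] at this
    omega
  obtain ⟨c, d, hcd, hσW'⟩ := Finset.card_eq_two.1 hd
  let f : V → Fin 4 := fun v => if v = a then 0 else if v = b then 1 else if v = c then 2 else 3
  have hmem : ∀ v ∈ σ, (v = a ∨ v = b) ∧ v ∈ W ∨ (v = c ∨ v = d) ∧ v ∉ W := by
    intro v hv
    by_cases h : v ∈ W
    · left
      have : v ∈ σ ∩ W := Finset.mem_inter.2 ⟨hv, h⟩
      rw [hσW] at this
      exact ⟨by simpa using this, h⟩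
    · right
      have : v ∈ σ \ W := Finset.mem_sdiff.2 ⟨hv, h⟩
      rw [hσW'] at this
      exact ⟨by simpa using this, h⟩
  have haW : a ∈ W := by
    have : a ∈ σ ∩ W := by rw [hσW]; simp
    exact (Finset.mem_inter.1 this).2
  have hbW : b ∈ W := by
    have : b ∈ σ ∩ W := by rw [hσW]; simp
    exact (Finset.mem_inter.1 this).2
  have hcW : c ∉ W := by
    have : c ∈ σ \ W := by rw [hσW']; simp
    exact (Finset.mem_sdiff.1 this).2
  have hdW : d ∉ W := by
    have : d ∈ σ \ W := by rw [hσW']; simp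
    exact (Finset.mem_sdiff.1 this).2
  have hac : c ≠ a := fun h => hcW (h ▸ haW)
  have hbc : c ≠ b := fun h => hcW (h ▸ hbW)
  have had : d ≠ a := fun h => hdW (h ▸ haW)
  have hbd : d ≠ b := fun h => hdW (h ▸ hbW)
  have fa : f a = 0 := by simp [f]
  have fb : f b = 1 := by simp [f, hab.symm]
  have fc : f c = 2 := by simp [f, hac, hbc]
  have fd : f d = 3 := by simp [f, had, hbd, hcd.symm]
  have hinj : ∀ u ∈ σ, ∀ v ∈ σ, f u = f v → u = v := by
    intro u hu v hv huv
    rcases hmem u hu with ⟨rfl | rfl, _⟩ | ⟨rfl | rfl, _⟩ <;>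
    rcases hmem v hv with ⟨rfl | rfl, _⟩ | ⟨rfl | rfl, _⟩ <;>
    first
      | rfl
      | (exfalso; simp [fa, fb, fc, fd] at huv)
  have hlt : ∀ u ∈ σ, ((f u : ℕ) < 2 ↔ u ∈ W) := by
    intro u hu
    rcases hmem u hu with ⟨rfl | rfl, h⟩ | ⟨rfl | rfl, h⟩
    · rw [fa]; simp [h]
    · rw [fb]; simp [h]
    · rw [fc]; simp [h]
    · rw [fd]; simp [h]
  refine ⟨fun v => ptsA x (f v), ?_, ?_⟩
  · exact (ptsA_indep hx hx2).comp_embedding ⟨fun v : σ => f v, fun u v huv =>
      Subtype.ext (hinj u u.2 v v.2 huv)⟩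
  · intro u hu v hv huv
    rw [ptsA_dist hx hx2 _ _ (fun h => huv (hinj u hu v hv h))]
    simp only [hlt u hu, hlt v hv]
    rfl

theorem hh_A {x : ℝ} : hh x 1 1 = x * (4 - x) ∧ hh 1 x 1 = x * (4 - x) ∧ hh 1 1 x = x * (4 - x) := by
  unfold hh
  refine ⟨?_, ?_, ?_⟩ <;> ring

theorem colA {T : Finset (Finset V)} (hT : ∀ σ ∈ T, σ.card = 4) {W : Finset V}
    (hW : ∀ σ ∈ T, (σ ∩ W).card = 2) {p s : ℕ}
    (h1 : ∀ u v : V, IsEdge T u v → (u ∈ W ↔ v ∈ W) → deg T u v = p)
    (h2 : ∀ u v : V, IsEdge T u v → ¬(u ∈ W ↔ v ∈ W) → deg T u v = s) :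
    ∃ x : ℝ, 0 < x ∧ x < 2 ∧ EinsteinI T (zA W x) := by
  obtain ⟨x, hx, hx2, hroot⟩ := exists_root_A p s
  have hz : ∀ u v : V, zA W x s(u, v) = if (u ∈ W ↔ v ∈ W) then x else 1 := fun u v => rfl
  have hpos : 0 < x * (4 - x) := mul_pos hx (by linarith)
  obtain ⟨hA1, hA2, hA3⟩ := hh_A (x := x)
  have hsq : √(x * (4 - x)) * √(x * (4 - x)) = x * (4 - x) := Real.mul_self_sqrt hpos.le
  have hnd : NondegM T (zA W x) := by
    intro u v a b h
    have hvv : 0 < x ^ 2 * (4 - 2 * x) := mul_pos (by positivity) (by linarith)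
    rcases pattern_A hT hW h with ⟨c1, c2, c3, c4⟩ | ⟨c1, c2, c3, c4⟩ | ⟨c1, c2, c3, c4⟩ |
      ⟨c1, c2, c3, c4⟩ | ⟨c1, c2, c3, c4⟩ | ⟨c1, c2, c3, c4⟩ <;>
    · simp only [hz, c1, c2, c3, c4, iff_true, iff_false, not_true, not_false_iff, if_true,
        if_false, Nondeg]
      simp only [hA1, hA2, hA3]
      refine ⟨?_, ?_, ?_, ?_, ?_, ?_, ?_, ?_, ?_, ?_, ?_⟩ <;> first
        | exact hx
        | exact one_pos
        | exact hpos
        | (unfold vv; nlinarith [hvv])
  have hdih : ∀ u v a b : V, ({u, v, a, b} : Finset V) ∈ T →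
      dih (zA W x) u v a b = if (u ∈ W ↔ v ∈ W) then alA x else gaA x := by
    intro u v a b h
    rw [dih_eq_th]
    have e1 : x * (4 - 3 * x) / (x * (4 - x)) = (4 - 3 * x) / (4 - x) :=
      mul_div_mul_left _ _ hx.ne'
    have e2 : x * x / (x * (4 - x)) = x / (4 - x) := mul_div_mul_left _ _ hx.ne'
    rcases pattern_A hT hW h with ⟨c1, c2, c3, c4⟩ | ⟨c1, c2, c3, c4⟩ | ⟨c1, c2, c3, c4⟩ |
      ⟨c1, c2, c3, c4⟩ | ⟨c1, c2, c3, c4⟩ | ⟨c1, c2, c3, c4⟩ <;>
    · simp only [hz, c1, c2, c3, c4, iff_true, iff_false, not_true, not_false_iff, if_true,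
        if_false, th]
      simp only [hA1, hA2, hA3, hsq]
      first
        | (unfold alA
           rw [← e1]
           congr 2
           unfold nn
           ring)
        | (unfold gaA
           rw [← e2]
           congr 2
           unfold nn
           ring)
  have hcurv : ∀ u v : V, IsEdge T u v → curv T (zA W x) u v =
      1 - (deg T u v : ℝ) * (if (u ∈ W ↔ v ∈ W) then alA x else gaA x) / (2 * Real.pi) := by
    intro u v he
    unfold curv
    have e1 : ∀ a b : V, (if ({u, v, a, b} : Finset V) ∈ T then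
        dih (zA W x) u v a b / (2 * Real.pi) else 0) =
        if ({u, v, a, b} : Finset V) ∈ T then
        (fun _ : Finset V => (if (u ∈ W ↔ v ∈ W) then alA x else gaA x) / (2 * Real.pi))
          {u, v, a, b} else 0 := by
      intro a b
      by_cases h : ({u, v, a, b} : Finset V) ∈ T
      · rw [if_pos h, if_pos h, hdih u v a b h]
      · rw [if_neg h, if_neg h]
    simp only [e1]
    rw [sum_pairs hT he.1 (fun _ : Finset V =>
      (if (u ∈ W ↔ v ∈ W) then alA x else gaA x) / (2 * Real.pi)), Finset.sum_const, nsmul_eq_mul]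
    unfold deg
    ring
  refine ⟨x, hx, hx2, isMetric_A hT hW hx hx2,
    (1 - s * gaA x / (2 * Real.pi)) / 2, fun u v he => ?_⟩
  refine (scal_deriv hT hnd he).congr_deriv ?_
  rw [hcurv u v he, hz]
  have hsx : 0 < √x := Real.sqrt_pos.2 hx
  by_cases h : (u ∈ W ↔ v ∈ W)
  · rw [if_pos h, if_pos h, h1 u v he h, hroot]
    field_simp
  · rw [if_neg h, if_neg h, h2 u v he h, Real.sqrt_one]
    ring

end Pool.Agent.EPL
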