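import Pool.Agent.EPL.Scal
import Pool.Agent.EPL.Count

/-!
# Nondegenerate squared edge lengths are realized by affinely independent points
-/

namespace Pool.Agent.EPL

/-- A point of the three-dimensional Euclidean space. -/
noncomputable def pt (p q r : ℝ) : EuclideanSpace ℝ (Fin 3) := !₂[p, q, r]

theorem dist_pt (p q r p' q' r' : ℝ) :
    dist (pt p q r) (pt p' q' r') ^ 2 = (p - p') ^ 2 + (q - q') ^ 2 + (r - r') ^ 2 := by
  rw [EuclideanSpace.dist_eq, Real.sq_sqrt (Finset.sum_nonneg fun i _ => sq_nonneg _),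
    Fin.sum_univ_three]
  simp [pt, Real.dist_eq, sq_abs]

/-- Four points in general position. -/
theorem aff_pt {s p q x y z : ℝ} (hs : s ≠ 0) (hq : q ≠ 0) (hz : z ≠ 0) :
    AffineIndependent ℝ ![pt 0 0 0, pt s 0 0, pt p q 0, pt x y z] := by
  rw [affineIndependent_iff_of_fintype]
  intro w hw h
  rw [Finset.weightedVSub_eq_linear_combination _ hw, Fin.sum_univ_four] at h
  rw [Fin.sum_univ_four] at hw
  have h0 := congrArg (fun v : EuclideanSpace ℝ (Fin 3) => v 0) h
  have h1 := congrArg (fun v : EuclideanSpace ℝ (Fin 3) => v 1) h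
  have h2 := congrArg (fun v : EuclideanSpace ℝ (Fin 3) => v 2) h
  simp [pt] at h0 h1 h2
  have w3 : w 3 = 0 := by
    rcases h2 with h2 | h2
    · exact h2
    · exact absurd h2 hz
  rw [w3] at h0 h1 hw
  have w2 : w 2 = 0 := by
    simp only [zero_mul, add_zero] at h1
    rcases mul_eq_zero.1 h1 with h1 | h1
    · exact h1
    · exact absurd h1 hq
  rw [w2] at h0 hw
  have w1 : w 1 = 0 := by
    simp only [zero_mul, add_zero] at h0
    rcases mul_eq_zero.1 h0 with h0 | h0
    · exact h0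
    · exact absurd h0 hs
  rw [w1] at hw
  have w0 : w 0 = 0 := by linarith
  intro i
  fin_cases i
  · exact w0
  · exact w1
  · exact w2
  · exact w3

/-- The coordinates. -/
theorem coords {a b c d e f : ℝ} (h : Nondeg a b c d e f) :
    ∃ s p q x y z : ℝ, s ≠ 0 ∧ q ≠ 0 ∧ z ≠ 0 ∧ a = s ^ 2 ∧ b = p ^ 2 + q ^ 2 ∧
      c = x ^ 2 + y ^ 2 + z ^ 2 ∧ d = (s - p) ^ 2 + q ^ 2 ∧
      e = (s - x) ^ 2 + y ^ 2 + z ^ 2 ∧ f = (p - x) ^ 2 + (q - y) ^ 2 + z ^ 2 := by
  obtain ⟨pa, pb, pc, pd, pe, pf, h1, h2, h3, h4, hv⟩ := h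
  have hs : 0 < √a := Real.sqrt_pos.2 pa
  have hs2 : √a ^ 2 = a := Real.sq_sqrt pa.le
  have hq0 : 0 < hh a b d / (4 * a) := by positivity
  have hq : 0 < √(hh a b d / (4 * a)) := Real.sqrt_pos.2 hq0
  have hq2 : √(hh a b d / (4 * a)) ^ 2 = hh a b d / (4 * a) := Real.sq_sqrt hq0.le
  have hz0 : 0 < vv a b c d e f / hh a b d := by positivity
  have hz : 0 < √(vv a b c d e f / hh a b d) := Real.sqrt_pos.2 hz0
  have hz2 : √(vv a b c d e f / hh a b d) ^ 2 = vv a b c d e f / hh a b d := Real.sq_sqrt hz0.le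
  generalize √a = s at *
  generalize √(hh a b d / (4 * a)) = q at *
  generalize √(vv a b c d e f / hh a b d) = z at *
  have e1 : hh a b d = 4 * a * q ^ 2 := by
    rw [hq2]
    field_simp
  have e2 : vv a b c d e f = 4 * a * q ^ 2 * z ^ 2 := by
    rw [hz2, e1]
    field_simp
  obtain ⟨p, hp⟩ : ∃ p : ℝ, 2 * s * p = a + b - d := ⟨(a + b - d) / (2 * s), by field_simp⟩
  obtain ⟨x, hx⟩ : ∃ x : ℝ, 2 * s * x = a + c - e := ⟨(a + c - e) / (2 * s), by field_simp⟩
  obtain ⟨y, hy⟩ : ∃ y : ℝ, q * y = (b + c - f) / 2 - p * x :=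
    ⟨((b + c - f) / 2 - p * x) / q, by field_simp⟩
  have kb : b = p ^ 2 + q ^ 2 := by
    have h5 : 4 * a * b = 4 * a * (p ^ 2 + q ^ 2) := by
      have : 4 * a * p ^ 2 = (a + b - d) ^ 2 := by
        rw [← hp, ← hs2]
        ring
      rw [mul_add, this, ← e1]
      unfold hh
      ring
    exact mul_left_cancel₀ (by positivity) h5
  have kc : c = x ^ 2 + y ^ 2 + z ^ 2 := by
    have k4 : 4 * a * x ^ 2 = (a + c - e) ^ 2 := by
      rw [← hx, ← hs2]
      ring
    have k5 : 4 * a * (q * y) = nn a b c d e f := by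
      have : 4 * a * (p * x) = (a + b - d) * (a + c - e) := by
        rw [← hx, ← hp, ← hs2]
        ring
      rw [hy, mul_sub, this]
      unfold nn
      ring
    have k6 := hh_mul_hh a b c d e f
    have h5 : 16 * a ^ 2 * q ^ 2 * c = 16 * a ^ 2 * q ^ 2 * (x ^ 2 + y ^ 2 + z ^ 2) := by
      have k7 : 16 * a ^ 2 * q ^ 2 * y ^ 2 = nn a b c d e f ^ 2 := by
        rw [← k5]
        ring
      have k8 : hh a c e = 4 * a * c - (a + c - e) ^ 2 := by
        unfold hh
        ring
      rw [k8, e1, ← k7, ← k4, e2] at k6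
      linear_combination k6
    exact mul_left_cancel₀ (by positivity) h5
  refine ⟨s, p, q, x, y, z, hs.ne', hq.ne', hz.ne', hs2.symm, kb, kc, ?_, ?_, ?_⟩
  · linear_combination kb + hp - hs2
  · linear_combination kc + hx - hs2
  · linear_combination kb + kc + 2 * hy

variable {V : Type} [Fintype V] [DecidableEq V]

omit [Fintype V] in
/-- Nondegenerate squared edge lengths define a p.l. metric. -/
theorem isMetric_of_nondegM {T : Finset (Finset V)} (hT : ∀ σ ∈ T, σ.card = 4)
    {z : Sym2 V → ℝ} (hz : NondegM T z) : IsMetric T z := by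
  intro σ hσ
  obtain ⟨u, v, x, y, h4⟩ : ∃ u v x y : V, σ = {u, v, x, y} := by
    obtain ⟨u, hu⟩ : σ.Nonempty := Finset.card_pos.1 (by rw [hT σ hσ]; norm_num)
    obtain ⟨v, hv⟩ : (σ.erase u).Nonempty :=
      Finset.card_pos.1 (by rw [Finset.card_erase_of_mem hu, hT σ hσ]; norm_num)
    obtain ⟨x, y, _, h, _⟩ := exists_pair (hT σ hσ) hu (Finset.mem_of_mem_erase hv)
      (Finset.ne_of_mem_erase hv).symm
    exact ⟨u, v, x, y, h⟩
  have hmem : ({u, v, x, y} : Finset V) ∈ T := h4 ▸ hσ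
  obtain ⟨huv, hux, huy, hvx, hvy, hxy⟩ := distinct hT hmem
  obtain ⟨s, p, q, x', y', z', hs, hq, hz', ka, kb, kc, kd, ke, kf⟩ :=
    coords (hz u v x y hmem)
  let P : V → EuclideanSpace ℝ (Fin 3) := fun w =>
    if w = u then pt 0 0 0 else if w = v then pt s 0 0 else if w = x then pt p q 0
    else pt x' y' z'
  have Pu : P u = pt 0 0 0 := if_pos rfl
  have Pv : P v = pt s 0 0 := by
    show (if v = u then _ else if v = v then _ else _) = _
    rw [if_neg huv.symm, if_pos rfl]
  have Px : P x = pt p q 0 := by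
    show (if x = u then _ else if x = v then _ else if x = x then _ else _) = _
    rw [if_neg hux.symm, if_neg hvx.symm, if_pos rfl]
  have Py : P y = pt x' y' z' := by
    show (if y = u then _ else if y = v then _ else if y = x then _ else _) = _
    rw [if_neg huy.symm, if_neg hvy.symm, if_neg hxy.symm]
  refine ⟨P, ?_, ?_⟩
  · have hg : ∀ i : Fin 4, ![u, v, x, y] i ∈ σ := by
      intro i
      rw [h4]
      fin_cases i <;> simp
    have hbij : Function.Bijective (fun i : Fin 4 => (⟨![u, v, x, y] i, hg i⟩ : σ)) := by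
      constructor
      · intro i j hij
        have hij' : ![u, v, x, y] i = ![u, v, x, y] j := congrArg Subtype.val hij
        fin_cases i <;> fin_cases j <;> first | rfl | (exfalso; simp at hij'; tauto)
      · rintro ⟨w, hw⟩
        rw [h4] at hw
        simp only [Finset.mem_insert, Finset.mem_singleton] at hw
        rcases hw with rfl | rfl | rfl | rfl
        · exact ⟨0, rfl⟩
        · exact ⟨1, rfl⟩
        · exact ⟨2, rfl⟩
        · exact ⟨3, rfl⟩
    rw [← affineIndependent_equiv (Equiv.ofBijective _ hbij)]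
    have hcomp : (fun v : σ => P v) ∘ (Equiv.ofBijective _ hbij) =
        ![pt 0 0 0, pt s 0 0, pt p q 0, pt x' y' z'] := by
      funext i
      fin_cases i
      · exact Pu
      · exact Pv
      · exact Px
      · exact Py
    rw [hcomp]
    exact aff_pt hs hq hz'
  · intro w₁ h₁ w₂ h₂ hne
    rw [h4] at h₁ h₂
    simp only [Finset.mem_insert, Finset.mem_singleton] at h₁ h₂
    have c1 : z s(u, v) = dist (P u) (P v) ^ 2 := by
      rw [Pu, Pv, dist_pt, ka]; ring
    have c2 : z s(u, x) = dist (P u) (P x) ^ 2 := by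
      rw [Pu, Px, dist_pt, kb]; ring
    have c3 : z s(u, y) = dist (P u) (P y) ^ 2 := by
      rw [Pu, Py, dist_pt, kc]; ring
    have c4 : z s(v, x) = dist (P v) (P x) ^ 2 := by
      rw [Pv, Px, dist_pt, kd]; ring
    have c5 : z s(v, y) = dist (P v) (P y) ^ 2 := by
      rw [Pv, Py, dist_pt, ke]; ring
    have c6 : z s(x, y) = dist (P x) (P y) ^ 2 := by
      rw [Px, Py, dist_pt, kf]; ring
    rcases h₁ with h₁ | h₁ | h₁ | h₁ <;> rcases h₂ with h₂ | h₂ | h₂ | h₂ <;> rw [h₁, h₂]
    all_goals first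
      | exact absurd (h₁.trans h₂.symm) hne
      | assumption
      | (rw [Sym2.eq_swap, dist_comm]; assumption)

end Pool.Agent.EPL
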