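import Pool.Agent.EPL.Scal
import Pool.Agent.EPL.Count
import Pool.Agent.EPL.Real

/-!
# Complexes with at most one vertex of the set `O` in every 3-simplex
-/

namespace Pool.Agent.EPL

variable {V : Type} [Fintype V] [DecidableEq V]

/-- Squared length `x` for the edges which do not meet `O`, `1` for the other ones. -/
noncomputable def zB (O : Finset V) (x : ℝ) : Sym2 V → ℝ :=
  Sym2.lift ⟨fun u v => if u ∉ O ∧ v ∉ O then x else 1, fun u v => by simp only [and_comm]⟩

omit [Fintype V] in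
theorem zB_mk (O : Finset V) (x : ℝ) (u v : V) :
    zB O x s(u, v) = if u ∉ O ∧ v ∉ O then x else 1 := rfl

/-- The dihedral angle at a base edge. -/
noncomputable def al (x : ℝ) : ℝ := Real.arccos (√(x / (3 * (4 - x))))

/-- The dihedral angle at an edge which contains the apex. -/
noncomputable def be (x : ℝ) : ℝ := Real.arccos ((2 - x) / (4 - x))

theorem nd0 {x : ℝ} (hx : 0 < x) : Nondeg x x x x x x := by
  have h3 : 0 < hh x x x := by
    have : hh x x x = 3 * x ^ 2 := by unfold hh; ring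
    rw [this]; positivity
  have hv : 0 < vv x x x x x x := by
    have : vv x x x x x x = 2 * x ^ 3 := by unfold vv; ring
    rw [this]; positivity
  exact ⟨hx, hx, hx, hx, hx, hx, h3, h3, h3, h3, hv⟩

omit [Fintype V] in
theorem cases_O {T : Finset (Finset V)} (hT : ∀ σ ∈ T, σ.card = 4) {O : Finset V}
    (hO : ∀ σ ∈ T, (σ ∩ O).card ≤ 1) {u v a b : V} (h : ({u, v, a, b} : Finset V) ∈ T) :
    (u ∉ O ∧ v ∉ O ∧ a ∉ O ∧ b ∉ O) ∨ (u ∈ O ∧ v ∉ O ∧ a ∉ O ∧ b ∉ O) ∨
      (u ∉ O ∧ v ∈ O ∧ a ∉ O ∧ b ∉ O) ∨ (u ∉ O ∧ v ∉ O ∧ a ∈ O ∧ b ∉ O) ∨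
      (u ∉ O ∧ v ∉ O ∧ a ∉ O ∧ b ∈ O) := by
  obtain ⟨h1, h2, h3, h4, h5, h6⟩ := distinct hT h
  have key := Finset.card_le_one.1 (hO _ h)
  simp only [Finset.mem_inter, Finset.mem_insert, Finset.mem_singleton] at key
  by_cases hu : u ∈ O
  · have hv : v ∉ O := fun hv => h1 (key u ⟨by simp, hu⟩ v ⟨by simp, hv⟩)
    have ha : a ∉ O := fun ha => h2 (key u ⟨by simp, hu⟩ a ⟨by simp, ha⟩)
    have hb : b ∉ O := fun hb => h3 (key u ⟨by simp, hu⟩ b ⟨by simp, hb⟩)
    exact Or.inr (Or.inl ⟨hu, hv, ha, hb⟩)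
  · by_cases hv : v ∈ O
    · have ha : a ∉ O := fun ha => h4 (key v ⟨by simp, hv⟩ a ⟨by simp, ha⟩)
      have hb : b ∉ O := fun hb => h5 (key v ⟨by simp, hv⟩ b ⟨by simp, hb⟩)
      exact Or.inr (Or.inr (Or.inl ⟨hu, hv, ha, hb⟩))
    · by_cases ha : a ∈ O
      · have hb : b ∉ O := fun hb => h6 (key a ⟨by simp, ha⟩ b ⟨by simp, hb⟩)
        exact Or.inr (Or.inr (Or.inr (Or.inl ⟨hu, hv, ha, hb⟩)))
      · by_cases hb : b ∈ O
        · exact Or.inr (Or.inr (Or.inr (Or.inr ⟨hu, hv, ha, hb⟩)))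
        · exact Or.inl ⟨hu, hv, ha, hb⟩

omit [Fintype V] in
theorem nondegB {T : Finset (Finset V)} (hT : ∀ σ ∈ T, σ.card = 4) {O : Finset V}
    (hO : ∀ σ ∈ T, (σ ∩ O).card ≤ 1) {x : ℝ} (h0 : 0 < x) (h3 : x < 3) :
    NondegM T (zB O x) := by
  intro u v a b h
  have k1 : 0 < hh 1 1 x := by
    have : hh 1 1 x = x * (4 - x) := by unfold hh; ring
    rw [this]; exact mul_pos h0 (by linarith)
  have k2 : 0 < hh 1 x 1 := by
    have : hh 1 x 1 = x * (4 - x) := by unfold hh; ring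
    rw [this]; exact mul_pos h0 (by linarith)
  have k3 : 0 < hh x 1 1 := by
    have : hh x 1 1 = x * (4 - x) := by unfold hh; ring
    rw [this]; exact mul_pos h0 (by linarith)
  have k4 : 0 < hh x x x := by
    have : hh x x x = 3 * x ^ 2 := by unfold hh; ring
    rw [this]; positivity
  have kv : 0 < x ^ 2 * (3 - x) := mul_pos (by positivity) (by linarith)
  rcases cases_O hT hO h with ⟨hu, hv, ha, hb⟩ | ⟨hu, hv, ha, hb⟩ | ⟨hu, hv, ha, hb⟩ |
    ⟨hu, hv, ha, hb⟩ | ⟨hu, hv, ha, hb⟩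
  · simp only [zB_mk, hu, hv, ha, hb, not_true_eq_false, not_false_eq_true, and_self, and_true,
      and_false, true_and, false_and, if_true, if_false]
    exact nd0 h0
  all_goals
    simp only [zB_mk, hu, hv, ha, hb, not_true_eq_false, not_false_eq_true, and_self, and_true,
      and_false, true_and, false_and, if_true, if_false]
    refine ⟨by norm_num <;> assumption, by norm_num <;> assumption, by norm_num <;> assumption,
      by norm_num <;> assumption, by norm_num <;> assumption, by norm_num <;> assumption,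
      by assumption, by assumption, by assumption, by assumption, ?_⟩
    refine lt_of_lt_of_eq kv ?_
    unfold vv
    ring

/-- The dihedral angle of the regular tetrahedron. -/
theorem ang_reg {x : ℝ} (hx : 0 < x) :
    (x * (x / 2) - x / 2 * (x / 2)) /
      (√(x * x - (x / 2) ^ 2) * √(x * x - (x / 2) ^ 2)) = 1 / 3 := by
  rw [Real.mul_self_sqrt (by nlinarith [sq_nonneg x])]
  field_simp
  norm_num

theorem ang_base {x : ℝ} (hx : 0 < x) (hx4 : x < 4) :
    (x * (x / 2) - x / 2 * (x / 2)) /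
      (√(x * 1 - (x / 2) ^ 2) * √(x * x - (x / 2) ^ 2)) = √(x / (3 * (4 - x))) := by
  have h4 : 0 < 4 - x := by linarith
  have e1 : x * 1 - (x / 2) ^ 2 = x * (4 - x) / 4 := by ring
  have e2 : x * x - (x / 2) ^ 2 = 3 * x ^ 2 / 4 := by ring
  have p1 : 0 < x * (4 - x) / 4 := by positivity
  have p2 : 0 < 3 * x ^ 2 / 4 := by positivity
  rw [e1, e2, ← Real.sqrt_mul p1.le]
  have p3 : 0 < x * (4 - x) / 4 * (3 * x ^ 2 / 4) := mul_pos p1 p2
  rw [div_eq_iff (Real.sqrt_pos.2 p3).ne', ← Real.sqrt_mul (by positivity)]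
  have e3 : x / (3 * (4 - x)) * (x * (4 - x) / 4 * (3 * x ^ 2 / 4)) = (x ^ 2 / 4) ^ 2 := by
    field_simp
  rw [e3, Real.sqrt_sq (by positivity)]
  ring

theorem ang_apex1 {x : ℝ} (hx : 0 < x) (hx4 : x < 4) :
    (1 * ((2 - x) / 2) - (2 - x) / 2 * ((2 - x) / 2)) /
      (√(1 * 1 - ((2 - x) / 2) ^ 2) * √(1 * 1 - ((2 - x) / 2) ^ 2)) = (2 - x) / (4 - x) := by
  have h4 : 0 < 4 - x := by linarith
  have e1 : 1 * 1 - ((2 - x) / 2) ^ 2 = x * (4 - x) / 4 := by ring
  have p1 : 0 < x * (4 - x) / 4 := by positivity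
  rw [e1, Real.mul_self_sqrt p1.le]
  field_simp
  ring

theorem ang_apex2 {x : ℝ} (hx : 0 < x) (hx4 : x < 4) :
    (1 * (x / 2) - x / 2 * (x / 2)) /
      (√(1 * x - (x / 2) ^ 2) * √(1 * x - (x / 2) ^ 2)) = (2 - x) / (4 - x) := by
  have h4 : 0 < 4 - x := by linarith
  have e1 : 1 * x - (x / 2) ^ 2 = x * (4 - x) / 4 := by ring
  have p1 : 0 < x * (4 - x) / 4 := by positivity
  rw [e1, Real.mul_self_sqrt p1.le]
  field_simp
  ring

omit [Fintype V] in
/-- The dihedral angles. -/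
theorem dihB {T : Finset (Finset V)} (hT : ∀ σ ∈ T, σ.card = 4) {O : Finset V}
    (hO : ∀ σ ∈ T, (σ ∩ O).card ≤ 1) {x : ℝ} (h0 : 0 < x) (h3 : x < 4) {u v a b : V}
    (h : ({u, v, a, b} : Finset V) ∈ T) :
    dih (zB O x) u v a b = if u ∈ O ∨ v ∈ O then be x else
      if ({u, v, a, b} : Finset V) ∩ O = ∅ then Real.arccos (1 / 3) else al x := by
  have hemp : ({u, v, a, b} : Finset V) ∩ O = ∅ ↔ (u ∉ O ∧ v ∉ O ∧ a ∉ O ∧ b ∉ O) := by
    rw [Finset.eq_empty_iff_forall_notMem]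
    simp only [Finset.mem_inter, Finset.mem_insert, Finset.mem_singleton, not_and]
    constructor
    · intro hh
      exact ⟨hh u (by simp), hh v (by simp), hh a (by simp), hh b (by simp)⟩
    · rintro ⟨h1, h2, h3, h4⟩ c (rfl | rfl | rfl | rfl) <;> assumption
  have t1 : (x + x - x) / 2 = x / 2 := by ring
  have t2 : (x + 1 - 1) / 2 = x / 2 := by ring
  have t3 : (1 + x - 1) / 2 = x / 2 := by ring
  have t4 : (1 + 1 - x) / 2 = (2 - x) / 2 := by ring
  rcases cases_O hT hO h with ⟨hu, hv, ha, hb⟩ | ⟨hu, hv, ha, hb⟩ | ⟨hu, hv, ha, hb⟩ |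
    ⟨hu, hv, ha, hb⟩ | ⟨hu, hv, ha, hb⟩
  · rw [if_neg (by tauto), if_pos (hemp.2 ⟨hu, hv, ha, hb⟩)]
    unfold dih ip
    simp only [zB_mk, hu, hv, ha, hb, not_false_eq_true, and_self, if_true]
    rw [t1, ang_reg h0]
  · rw [if_pos (Or.inl hu)]
    unfold dih ip be
    simp only [zB_mk, hu, hv, ha, hb, not_true_eq_false, not_false_eq_true, and_self, and_true,
      and_false, true_and, false_and, if_true, if_false]
    rw [t4, ang_apex1 h0 h3]
  · rw [if_pos (Or.inr hv)]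
    unfold dih ip be
    simp only [zB_mk, hu, hv, ha, hb, not_true_eq_false, not_false_eq_true, and_self, and_true,
      and_false, true_and, false_and, if_true, if_false]
    rw [t1, t3, ang_apex2 h0 h3]
  · rw [if_neg (by tauto), if_neg (fun hh => (hemp.1 hh).2.2.1 ha)]
    unfold dih ip al
    simp only [zB_mk, hu, hv, ha, hb, not_true_eq_false, not_false_eq_true, and_self, and_true,
      and_false, true_and, false_and, if_true, if_false]
    rw [t1, t2, t3, ang_base h0 h3]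
  · rw [if_neg (by tauto), if_neg (fun hh => (hemp.1 hh).2.2.2 hb)]
    unfold dih ip al
    simp only [zB_mk, hu, hv, ha, hb, not_true_eq_false, not_false_eq_true, and_self, and_true,
      and_false, true_and, false_and, if_true, if_false]
    rw [t1, t2, mul_comm (√(x * x - (x / 2) ^ 2)), ang_base h0 h3]

open Classical in
/-- The curvature as a sum over the 3-simplices. -/
theorem curv_eq {T : Finset (Finset V)} (hT : ∀ σ ∈ T, σ.card = 4) (z : Sym2 V → ℝ) {u v : V}
    (huv : u ≠ v) (g : Finset V → ℝ)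
    (h : ∀ a b : V, ({u, v, a, b} : Finset V) ∈ T → dih z u v a b = g {u, v, a, b}) :
    curv T z u v =
      1 - (∑ σ ∈ T.filter (fun σ => u ∈ σ ∧ v ∈ σ), g σ) / (2 * Real.pi) := by
  unfold curv
  have h1 : ∀ a b : V, (if ({u, v, a, b} : Finset V) ∈ T then dih z u v a b / (2 * Real.pi)
      else 0) = if ({u, v, a, b} : Finset V) ∈ T then (fun σ => g σ / (2 * Real.pi)) {u, v, a, b}
      else 0 := by
    intro a b
    split_ifs with h2
    · rw [h a b h2]
    · rfl
  simp only [h1]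
  rw [sum_pairs hT huv (fun σ => g σ / (2 * Real.pi)), Finset.sum_div]
  ring

theorem curvB1 {T : Finset (Finset V)} (hT : ∀ σ ∈ T, σ.card = 4) {O : Finset V}
    (hO : ∀ σ ∈ T, (σ ∩ O).card ≤ 1) {x : ℝ} (h0 : 0 < x) (h3 : x < 4) {u v : V}
    (huv : u ≠ v) (hu : u ∈ O ∨ v ∈ O) :
    curv T (zB O x) u v = 1 - deg T u v * be x / (2 * Real.pi) := by
  rw [curv_eq hT _ huv (fun _ => be x) (fun a b h => by rw [dihB hT hO h0 h3 h, if_pos hu])]
  rw [Finset.sum_const, nsmul_eq_mul]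
  congr 4

theorem curvB2 {T : Finset (Finset V)} (hT : ∀ σ ∈ T, σ.card = 4) {O : Finset V}
    (hO : ∀ σ ∈ T, (σ ∩ O).card ≤ 1) {x : ℝ} (h0 : 0 < x) (h3 : x < 4) {u v : V}
    (huv : u ≠ v) (hu : u ∉ O) (hv : v ∉ O) :
    curv T (zB O x) u v = 1 -
      ((T.filter (fun σ => u ∈ σ ∧ v ∈ σ ∧ σ ∩ O = ∅)).card * Real.arccos (1 / 3) +
       (T.filter (fun σ => u ∈ σ ∧ v ∈ σ ∧ σ ∩ O ≠ ∅)).card * al x) / (2 * Real.pi) := by
  rw [curv_eq hT _ huv (fun σ => if σ ∩ O = ∅ then Real.arccos (1 / 3) else al x)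
    (fun a b h => by rw [dihB hT hO h0 h3 h, if_neg (by tauto)])]
  rw [Finset.sum_ite, Finset.sum_const, Finset.sum_const, nsmul_eq_mul, nsmul_eq_mul,
    Finset.filter_filter, Finset.filter_filter]
  simp only [and_assoc]

/-- Five regular tetrahedra fit around an edge. -/
theorem arccos_third_lt : Real.arccos (1 / 3) < 2 * Real.pi / 5 := by
  have hpi := Real.pi_pos
  have h1 : Real.cos (2 * Real.pi / 5) < 1 / 3 := by
    have h2 : Real.cos (2 * Real.pi / 5) = 2 * Real.cos (Real.pi / 5) ^ 2 - 1 := by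
      rw [← Real.cos_two_mul]
      congr 1
      ring
    rw [h2, Real.cos_pi_div_five]
    have h5 : √5 < 7 / 3 := by
      rw [Real.sqrt_lt' (by norm_num)]
      norm_num
    have h5' : √5 ^ 2 = 5 := Real.sq_sqrt (by norm_num)
    nlinarith
  have h3 : Real.arccos (Real.cos (2 * Real.pi / 5)) = 2 * Real.pi / 5 :=
    Real.arccos_cos (by positivity) (by linarith)
  rw [← h3]
  exact Real.arccos_lt_arccos (by linarith [Real.neg_one_le_cos (2 * Real.pi / 5)]) h1
    (by norm_num)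

/-- The equation. -/
noncomputable def FB (q r₀ r₁ : ℕ) (x : ℝ) : ℝ :=
  (1 - (r₀ * Real.arccos (1 / 3) + r₁ * al x) / (2 * Real.pi)) -
    x * √x * (1 - q * be x / (2 * Real.pi))

theorem exists_root {q r₀ r₁ : ℕ} (hq : 2 ≤ q) (hr : r₀ ≤ 5)
    (hr' : 2 * Real.pi < r₀ * Real.arccos (1 / 3) + r₁ * (Real.pi / 2)) :
    ∃ x : ℝ, 0 < x ∧ x < 3 ∧ FB q r₀ r₁ x = 0 := by
  have hpi := Real.pi_pos
  have hcont : ContinuousOn (FB q r₀ r₁) (Set.Icc 0 3) := by
    have c1 : ContinuousOn al (Set.Icc 0 3) := by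
      unfold al
      refine Real.continuous_arccos.comp_continuousOn (Real.continuous_sqrt.comp_continuousOn ?_)
      refine ContinuousOn.div continuousOn_id (by fun_prop) ?_
      intro x hx
      have := hx.2
      have : 0 < 4 - x := by linarith
      positivity
    have c2 : ContinuousOn be (Set.Icc 0 3) := by
      unfold be
      refine Real.continuous_arccos.comp_continuousOn ?_
      refine ContinuousOn.div (by fun_prop) (by fun_prop) ?_
      intro x hx
      have := hx.2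
      have : 0 < 4 - x := by linarith
      positivity
    unfold FB
    exact ((continuousOn_const.sub ((continuousOn_const.add (continuousOn_const.mul c1)).div_const
      _))).sub ((continuousOn_id.mul Real.continuous_sqrt.continuousOn).mul
        (continuousOn_const.sub ((continuousOn_const.mul c2).div_const _)))
  have h0 : FB q r₀ r₁ 0 < 0 := by
    have e1 : al 0 = Real.pi / 2 := by
      unfold al
      rw [zero_div, Real.sqrt_zero, Real.arccos_zero]
    unfold FB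
    rw [e1, zero_mul, zero_mul, sub_zero, sub_neg, lt_div_iff₀ (by positivity)]
    linarith
  have h3 : 0 < FB q r₀ r₁ 3 := by
    have e1 : al 3 = 0 := by
      unfold al
      norm_num
    have e2 : be 3 = Real.pi := by
      unfold be
      norm_num
    unfold FB
    rw [e1, e2, mul_zero, add_zero]
    have k1 : (r₀ * Real.arccos (1 / 3)) / (2 * Real.pi) < 1 := by
      rw [div_lt_one (by positivity)]
      have h5 : (r₀ : ℝ) ≤ 5 := by exact_mod_cast hr
      have := arccos_third_lt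
      have h6 : 0 ≤ Real.arccos (1 / 3) := Real.arccos_nonneg _
      nlinarith
    have k2 : (1 : ℝ) - q * Real.pi / (2 * Real.pi) ≤ 0 := by
      have : (q : ℝ) * Real.pi / (2 * Real.pi) = q / 2 := by
        field_simp
      rw [this]
      have : (2 : ℝ) ≤ q := by exact_mod_cast hq
      linarith
    have k3 : 0 < (3 : ℝ) * √3 := by positivity
    nlinarith
  obtain ⟨x, hx, hx0⟩ := intermediate_value_Ioo (by norm_num : (0 : ℝ) ≤ 3) hcont ⟨h0, h3⟩
  exact ⟨x, hx.1, hx.2, hx0⟩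

theorem colB {T : Finset (Finset V)} (hT : ∀ σ ∈ T, σ.card = 4) {O : Finset V}
    (hO : ∀ σ ∈ T, (σ ∩ O).card ≤ 1) {q r₀ r₁ : ℕ}
    (h1 : ∀ u v : V, IsEdge T u v → (u ∈ O ∨ v ∈ O) → deg T u v = q)
    (h2 : ∀ u v : V, IsEdge T u v → u ∉ O → v ∉ O →
      (T.filter (fun σ => u ∈ σ ∧ v ∈ σ ∧ σ ∩ O = ∅)).card = r₀ ∧
      (T.filter (fun σ => u ∈ σ ∧ v ∈ σ ∧ σ ∩ O ≠ ∅)).card = r₁)
    (hq : 2 ≤ q) (hr : r₀ ≤ 5)
    (hr' : 2 * Real.pi < r₀ * Real.arccos (1 / 3) + r₁ * (Real.pi / 2)) :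
    ∃ x : ℝ, 0 < x ∧ x < 3 ∧ EinsteinI T (zB O x) := by
  obtain ⟨x, h0, h3, hF⟩ := exists_root hq hr hr'
  have hN := nondegB hT hO h0 h3
  have h4 : x < 4 := by linarith
  refine ⟨x, h0, h3, isMetric_of_nondegM hT hN, (1 - q * be x / (2 * Real.pi)) / 2, ?_⟩
  intro u v he
  have hd := scal_deriv hT hN he
  refine hd.congr_deriv ?_
  by_cases hu : u ∈ O ∨ v ∈ O
  · rw [curvB1 hT hO h0 h4 he.1 hu, h1 u v he hu]
    have hz : zB O x s(u, v) = 1 := by
      rw [zB_mk, if_neg (by tauto)]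
    rw [hz, Real.sqrt_one]
    ring
  · rw [not_or] at hu
    rw [curvB2 hT hO h0 h4 he.1 hu.1 hu.2, (h2 u v he hu.1 hu.2).1, (h2 u v he hu.1 hu.2).2]
    have hz : zB O x s(u, v) = x := by
      rw [zB_mk, if_pos hu]
    rw [hz]
    have hs : 0 < √x := Real.sqrt_pos.2 h0
    unfold FB at hF
    rw [div_eq_iff (by positivity)]
    linear_combination hF

end Pool.Agent.EPL
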