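import Mathlib

/-!
# P.l. Einstein metrics on three-dimensional complexes: definitions (problem MP_52ec5c_gt)

A finite pure three-dimensional simplicial complex is given by the set `T` of its 3-simplices,
sets of four vertices.  The simplices of lower dimension are the subsets of the 3-simplices.  A
vector of squared edge lengths is a function `z : Sym2 V → ℝ`; only the values at the edges matter.
-/

namespace Pool.Agent.EPL

variable {V : Type} [Fintype V] [DecidableEq V]

/-- `u` and `v` are the ends of an edge of the complex. -/
def IsEdge (T : Finset (Finset V)) (u v : V) : Prop := u ≠ v ∧ ∃ σ ∈ T, u ∈ σ ∧ v ∈ σ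

/-- The number of 3-simplices which contain `u` and `v`. -/
def deg (T : Finset (Finset V)) (u v : V) : ℕ := (T.filter (fun σ => u ∈ σ ∧ v ∈ σ)).card

/-- The squared edge lengths `z` define a p.l. metric: every 3-simplex is isometric to a
nondegenerate Euclidean tetrahedron. -/
def IsMetric (T : Finset (Finset V)) (z : Sym2 V → ℝ) : Prop :=
  ∀ σ ∈ T, ∃ P : V → EuclideanSpace ℝ (Fin 3), AffineIndependent ℝ (fun v : σ => P v) ∧
    ∀ u ∈ σ, ∀ v ∈ σ, u ≠ v → z s(u, v) = dist (P u) (P v) ^ 2

/-- The inner product of the vectors `v - u` and `x - u` in terms of the squared lengths. -/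
noncomputable def ip (z : Sym2 V → ℝ) (u v x : V) : ℝ :=
  (z s(u, v) + z s(u, x) - z s(v, x)) / 2

/-- The dihedral angle (in radians) at the edge `uv` of the Euclidean tetrahedron `u v x y`: the
angle between the components of `x - u` and `y - u` orthogonal to `v - u` (see `dih_eq_angle` in
`Pool.Agent.EPL.Angle`). -/
noncomputable def dih (z : Sym2 V → ℝ) (u v x y : V) : ℝ :=
  Real.arccos ((z s(u, v) * ip z u x y - ip z u v x * ip z u v y) /
    (√(z s(u, v) * z s(u, x) - ip z u v x ^ 2) * √(z s(u, v) * z s(u, y) - ip z u v y ^ 2)))

open Classical in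
/-- The curvature at the edge `uv`: one minus the sum of the dihedral angles at `uv` of the
3-simplices which contain `uv`, in units of `2π`.  (The sum is over the ordered pairs `(x, y)`
such that `u, v, x, y` are the vertices of a 3-simplex; each 3-simplex is counted twice.) -/
noncomputable def curv (T : Finset (Finset V)) (z : Sym2 V → ℝ) (u v : V) : ℝ :=
  1 - (1 / 2) * ∑ x : V, ∑ y : V,
    if ({u, v, x, y} : Finset V) ∈ T then dih z u v x y / (2 * Real.pi) else 0

open Classical in
/-- The total scalar curvature: the sum over the edges of the curvature times the length.  (The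
sum is over the ordered pairs `(u, v)`; each edge is counted twice.) -/
noncomputable def scal (T : Finset (Finset V)) (z : Sym2 V → ℝ) : ℝ :=
  (1 / 2) * ∑ u : V, ∑ v : V, if IsEdge T u v then curv T z u v * √(z s(u, v)) else 0

/-- `z` is an Einstein metric of type I: a p.l. metric such that the gradient of the total scalar
curvature with respect to the squared edge lengths is a multiple of `z`. -/
def EinsteinI (T : Finset (Finset V)) (z : Sym2 V → ℝ) : Prop :=
  IsMetric T z ∧ ∃ lam : ℝ, ∀ u v : V, IsEdge T u v →
    HasDerivAt (fun t => scal T (Function.update z s(u, v) t)) (lam * z s(u, v)) (z s(u, v))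

end Pool.Agent.EPL
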