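import Pool.Agent.EPL.Tet
import Pool.Agent.EPL.Count

/-!
# The gradient of the total scalar curvature
-/

namespace Pool.Agent.EPL

variable {V : Type} [Fintype V] [DecidableEq V]

/-- All 3-simplices are nondegenerate for `z`. -/
def NondegM (T : Finset (Finset V)) (z : Sym2 V → ℝ) : Prop :=
  ∀ u v x y : V, ({u, v, x, y} : Finset V) ∈ T →
    Nondeg (z s(u, v)) (z s(u, x)) (z s(u, y)) (z s(v, x)) (z s(v, y)) (z s(x, y))

omit [Fintype V] [DecidableEq V] in
theorem dih_eq_th (z : Sym2 V → ℝ) (u v x y : V) :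
    dih z u v x y = th (z s(u, v)) (z s(u, x)) (z s(u, y)) (z s(v, x)) (z s(v, y)) (z s(x, y)) := by
  have h4 : √(4 : ℝ) = 2 := by
    rw [show (4 : ℝ) = 2 ^ 2 by norm_num]
    exact Real.sqrt_sq (by norm_num)
  have h1 : z s(u, v) * ip z u x y - ip z u v x * ip z u v y =
      nn (z s(u, v)) (z s(u, x)) (z s(u, y)) (z s(v, x)) (z s(v, y)) (z s(x, y)) / 4 := by
    unfold ip nn; ring
  have h2 : z s(u, v) * z s(u, x) - ip z u v x ^ 2 =
      hh (z s(u, v)) (z s(u, x)) (z s(v, x)) / 4 := by
    unfold ip hh; ring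
  have h3 : z s(u, v) * z s(u, y) - ip z u v y ^ 2 =
      hh (z s(u, v)) (z s(u, y)) (z s(v, y)) / 4 := by
    unfold ip hh; ring
  unfold dih th
  rw [h1, h2, h3, Real.sqrt_div' _ (by norm_num), Real.sqrt_div' _ (by norm_num), h4]
  congr 1
  rw [div_mul_div_comm, show (2 : ℝ) * 2 = 4 by norm_num, div_div_div_cancel_right₀ (by norm_num)]

theorem th_swap (a b c d e f : ℝ) : th a b c d e f = th a d e b c f := by
  have h1 : nn a b c d e f = nn a d e b c f := by unfold nn; ring
  have h2 : hh a b d = hh a d b := by unfold hh; ring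
  have h3 : hh a c e = hh a e c := by unfold hh; ring
  unfold th
  rw [h1, h2, h3]

omit [Fintype V] [DecidableEq V] in
theorem dih_comm (z : Sym2 V → ℝ) (u v x y : V) : dih z u v x y = dih z v u x y := by
  have e1 : s(v, u) = s(u, v) := Sym2.eq_swap
  rw [dih_eq_th z v u x y, e1, ← th_swap, ← dih_eq_th]

theorem curv_comm (T : Finset (Finset V)) (z : Sym2 V → ℝ) (u v : V) :
    curv T z u v = curv T z v u := by
  unfold curv
  congr 2
  refine Finset.sum_congr rfl fun x _ => Finset.sum_congr rfl fun y _ => ?_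
  rw [Finset.insert_comm u v, dih_comm z u v x y]

omit [Fintype V] [DecidableEq V] in
theorem IsEdge.symm {T : Finset (Finset V)} {u v : V} (h : IsEdge T u v) : IsEdge T v u := by
  obtain ⟨h1, σ, hσ, hu, hv⟩ := h
  exact ⟨h1.symm, σ, hσ, hv, hu⟩

omit [Fintype V] in
theorem isEdge_of_mem {T : Finset (Finset V)} (hT : ∀ σ ∈ T, σ.card = 4) {u v x y : V}
    (h : ({u, v, x, y} : Finset V) ∈ T) : IsEdge T u v :=
  ⟨(distinct hT h).1, _, h, by simp, by simp⟩

omit [Fintype V] in
theorem pos_of_isEdge {T : Finset (Finset V)} (hT : ∀ σ ∈ T, σ.card = 4) {z : Sym2 V → ℝ}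
    (hz : NondegM T z) {u v : V} (he : IsEdge T u v) : 0 < z s(u, v) := by
  obtain ⟨h1, σ, hσ, hu, hv⟩ := he
  obtain ⟨x, y, _, h2, _⟩ := exists_pair (hT σ hσ) hu hv h1
  exact (hz u v x y (h2 ▸ hσ)).1

open Classical in
/-- The total scalar curvature in terms of the sum over the ordered 3-simplices. -/
theorem scal_eq {T : Finset (Finset V)} (hT : ∀ σ ∈ T, σ.card = 4) (z : Sym2 V → ℝ) :
    scal T z = (1 / 2) * (∑ u : V, ∑ v : V, if IsEdge T u v then √(z s(u, v)) else 0) -
      1 / (8 * Real.pi) * ∑ u : V, ∑ v : V, ∑ x : V, ∑ y : V,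
        if ({u, v, x, y} : Finset V) ∈ T then √(z s(u, v)) * dih z u v x y else 0 := by
  have h1 : ∀ u v : V, (if IsEdge T u v then curv T z u v * √(z s(u, v)) else 0) =
      (if IsEdge T u v then √(z s(u, v)) else 0) - 1 / (4 * Real.pi) * ∑ x : V, ∑ y : V,
        if ({u, v, x, y} : Finset V) ∈ T then √(z s(u, v)) * dih z u v x y else 0 := by
    intro u v
    by_cases h : IsEdge T u v
    · rw [if_pos h, if_pos h]
      have h2 : ∑ x : V, ∑ y : V, (if ({u, v, x, y} : Finset V) ∈ T then
          √(z s(u, v)) * dih z u v x y else 0) =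
          2 * Real.pi * √(z s(u, v)) * ∑ x : V, ∑ y : V,
            if ({u, v, x, y} : Finset V) ∈ T then dih z u v x y / (2 * Real.pi) else 0 := by
        rw [Finset.mul_sum]
        refine Finset.sum_congr rfl fun x _ => ?_
        rw [Finset.mul_sum]
        refine Finset.sum_congr rfl fun y _ => ?_
        rw [mul_ite, mul_zero]
        congr 1
        field_simp
      rw [h2]
      unfold curv
      field_simp
      ring
    · rw [if_neg h, if_neg h]
      have h2 : ∑ x : V, ∑ y : V, (if ({u, v, x, y} : Finset V) ∈ T then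
          √(z s(u, v)) * dih z u v x y else 0) = 0 := by
        refine Finset.sum_eq_zero fun x _ => Finset.sum_eq_zero fun y _ => ?_
        rw [if_neg fun h3 => h (isEdge_of_mem hT h3)]
      rw [h2]
      ring
  unfold scal
  simp only [h1, Finset.sum_sub_distrib, ← Finset.mul_sum]
  ring

open Classical in
theorem sum_six (T : Finset (Finset V)) (g : V → V → V → V → ℝ) :
    ∑ u : V, ∑ v : V, ∑ x : V, ∑ y : V, (if ({u, v, x, y} : Finset V) ∈ T then
      g u v x y + g u x v y + g u y v x + g v x u y + g v y u x + g x y u v else 0) =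
    6 * ∑ u : V, ∑ v : V, ∑ x : V, ∑ y : V,
      if ({u, v, x, y} : Finset V) ∈ T then g u v x y else 0 := by
  set G : V → V → V → V → ℝ := fun u v x y =>
    if ({u, v, x, y} : Finset V) ∈ T then g u v x y else 0 with hG
  have h1 : ∀ u v x y : V, (if ({u, v, x, y} : Finset V) ∈ T then
      g u v x y + g u x v y + g u y v x + g v x u y + g v y u x + g x y u v else 0) =
      G u v x y + G u x v y + G u y v x + G v x u y + G v y u x + G x y u v := by
    intro u v x y
    have e1 : ({u, x, v, y} : Finset V) = {u, v, x, y} := by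
      ext a; simp only [Finset.mem_insert, Finset.mem_singleton]; tauto
    have e2 : ({u, y, v, x} : Finset V) = {u, v, x, y} := by
      ext a; simp only [Finset.mem_insert, Finset.mem_singleton]; tauto
    have e3 : ({v, x, u, y} : Finset V) = {u, v, x, y} := by
      ext a; simp only [Finset.mem_insert, Finset.mem_singleton]; tauto
    have e4 : ({v, y, u, x} : Finset V) = {u, v, x, y} := by
      ext a; simp only [Finset.mem_insert, Finset.mem_singleton]; tauto
    have e5 : ({x, y, u, v} : Finset V) = {u, v, x, y} := by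
      ext a; simp only [Finset.mem_insert, Finset.mem_singleton]; tauto
    simp only [hG, e1, e2, e3, e4, e5]
    by_cases h : ({u, v, x, y} : Finset V) ∈ T
    · simp only [if_pos h]
    · simp only [if_neg h, add_zero]
  have conv : ∀ H : V → V → V → V → ℝ, ∑ u : V, ∑ v : V, ∑ x : V, ∑ y : V, H u v x y =
      ∑ p : V × V × V × V, H p.1 p.2.1 p.2.2.1 p.2.2.2 := by
    intro H
    simp only [Fintype.sum_prod_type]
  have k1 : ∑ u : V, ∑ v : V, ∑ x : V, ∑ y : V, G u x v y =
      ∑ u : V, ∑ v : V, ∑ x : V, ∑ y : V, G u v x y := by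
    rw [conv (fun u v x y => G u x v y), conv G]
    exact Equiv.sum_comp (⟨fun p => (p.1, p.2.2.1, p.2.1, p.2.2.2),
      fun p => (p.1, p.2.2.1, p.2.1, p.2.2.2), fun _ => rfl, fun _ => rfl⟩ :
      V × V × V × V ≃ V × V × V × V) (fun p => G p.1 p.2.1 p.2.2.1 p.2.2.2)
  have k2 : ∑ u : V, ∑ v : V, ∑ x : V, ∑ y : V, G u y v x =
      ∑ u : V, ∑ v : V, ∑ x : V, ∑ y : V, G u v x y := by
    rw [conv (fun u v x y => G u y v x), conv G]
    exact Equiv.sum_comp (⟨fun p => (p.1, p.2.2.2, p.2.1, p.2.2.1),
      fun p => (p.1, p.2.2.1, p.2.2.2, p.2.1), fun _ => rfl, fun _ => rfl⟩ :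
      V × V × V × V ≃ V × V × V × V) (fun p => G p.1 p.2.1 p.2.2.1 p.2.2.2)
  have k3 : ∑ u : V, ∑ v : V, ∑ x : V, ∑ y : V, G v x u y =
      ∑ u : V, ∑ v : V, ∑ x : V, ∑ y : V, G u v x y := by
    rw [conv (fun u v x y => G v x u y), conv G]
    exact Equiv.sum_comp (⟨fun p => (p.2.1, p.2.2.1, p.1, p.2.2.2),
      fun p => (p.2.2.1, p.1, p.2.1, p.2.2.2), fun _ => rfl, fun _ => rfl⟩ :
      V × V × V × V ≃ V × V × V × V) (fun p => G p.1 p.2.1 p.2.2.1 p.2.2.2)
  have k4 : ∑ u : V, ∑ v : V, ∑ x : V, ∑ y : V, G v y u x =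
      ∑ u : V, ∑ v : V, ∑ x : V, ∑ y : V, G u v x y := by
    rw [conv (fun u v x y => G v y u x), conv G]
    exact Equiv.sum_comp (⟨fun p => (p.2.1, p.2.2.2, p.1, p.2.2.1),
      fun p => (p.2.2.1, p.1, p.2.2.2, p.2.1), fun _ => rfl, fun _ => rfl⟩ :
      V × V × V × V ≃ V × V × V × V) (fun p => G p.1 p.2.1 p.2.2.1 p.2.2.2)
  have k5 : ∑ u : V, ∑ v : V, ∑ x : V, ∑ y : V, G x y u v =
      ∑ u : V, ∑ v : V, ∑ x : V, ∑ y : V, G u v x y := by
    rw [conv (fun u v x y => G x y u v), conv G]
    exact Equiv.sum_comp (⟨fun p => (p.2.2.1, p.2.2.2, p.1, p.2.1),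
      fun p => (p.2.2.1, p.2.2.2, p.1, p.2.1), fun _ => rfl, fun _ => rfl⟩ :
      V × V × V × V ≃ V × V × V × V) (fun p => G p.1 p.2.1 p.2.2.1 p.2.2.2)
  simp only [h1, Finset.sum_add_distrib]
  rw [k1, k2, k3, k4, k5]
  ring

omit [Fintype V] in
theorem upd_deriv (z : Sym2 V → ℝ) (e p : Sym2 V) (t : ℝ) :
    HasDerivAt (fun s => Function.update z e s p) (if p = e then 1 else 0) t := by
  by_cases h : p = e
  · subst h
    simp only [Function.update_self, if_true]
    exact hasDerivAt_id' t
  · simp only [Function.update_of_ne h, if_neg h]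
    exact hasDerivAt_const _ _

omit [Fintype V] [DecidableEq V] in
theorem six_eq (w z : Sym2 V → ℝ) (u v x y : V) :
    w s(u, v) * dih z u v x y + w s(u, x) * dih z u x v y + w s(u, y) * dih z u y v x +
      w s(v, x) * dih z v x u y + w s(v, y) * dih z v y u x + w s(x, y) * dih z x y u v =
    w s(u, v) * th (z s(u, v)) (z s(u, x)) (z s(u, y)) (z s(v, x)) (z s(v, y)) (z s(x, y)) +
    w s(u, x) * th (z s(u, x)) (z s(u, v)) (z s(u, y)) (z s(v, x)) (z s(x, y)) (z s(v, y)) +
    w s(u, y) * th (z s(u, y)) (z s(u, v)) (z s(u, x)) (z s(v, y)) (z s(x, y)) (z s(v, x)) +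
    w s(v, x) * th (z s(v, x)) (z s(u, v)) (z s(v, y)) (z s(u, x)) (z s(x, y)) (z s(u, y)) +
    w s(v, y) * th (z s(v, y)) (z s(u, v)) (z s(v, x)) (z s(u, y)) (z s(x, y)) (z s(u, x)) +
    w s(x, y) * th (z s(x, y)) (z s(u, x)) (z s(v, x)) (z s(u, y)) (z s(v, y)) (z s(u, v)) := by
  have e1 : s(x, v) = s(v, x) := Sym2.eq_swap
  have e2 : s(y, v) = s(v, y) := Sym2.eq_swap
  have e3 : s(y, x) = s(x, y) := Sym2.eq_swap
  have e4 : s(v, u) = s(u, v) := Sym2.eq_swap
  have e5 : s(x, u) = s(u, x) := Sym2.eq_swap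
  have e6 : s(y, u) = s(u, y) := Sym2.eq_swap
  rw [dih_eq_th z u v x y, dih_eq_th z u x v y, dih_eq_th z u y v x, dih_eq_th z v x u y,
    dih_eq_th z v y u x, dih_eq_th z x y u v, e1, e2, e3, e4, e5, e6]

theorem sum_sym2 {u₀ v₀ : V} (h : u₀ ≠ v₀) (K : V → V → ℝ) :
    ∑ u : V, ∑ v : V, (if s(u, v) = s(u₀, v₀) then K u v else 0) = K u₀ v₀ + K v₀ u₀ := by
  have h1 : ∀ u v : V, (if s(u, v) = s(u₀, v₀) then K u v else 0) =
      (if u = u₀ then (if v = v₀ then K u v else 0) else 0) +
        (if u = v₀ then (if v = u₀ then K u v else 0) else 0) := by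
    intro u v
    by_cases ha : u = u₀
    · subst ha
      by_cases hb : v = v₀
      · subst hb
        simp [h]
      · have h2 : ¬ s(u, v) = s(u, v₀) := by
          rw [Sym2.eq_iff]
          rintro (⟨_, h3⟩ | ⟨h3, _⟩)
          · exact hb h3
          · exact h h3
        simp [h2, hb, h]
    · by_cases ha' : u = v₀
      · subst ha'
        by_cases hb : v = u₀
        · subst hb
          have h2 : s(u, v) = s(v, u) := Sym2.eq_swap
          simp [h2, ha]
        · have h2 : ¬ s(u, v) = s(u₀, u) := by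
            rw [Sym2.eq_iff]
            rintro (⟨h3, _⟩ | ⟨_, h3⟩)
            · exact ha h3
            · exact hb h3
          simp [h2, hb, ha]
      · have h2 : ¬ s(u, v) = s(u₀, v₀) := by
          rw [Sym2.eq_iff]
          rintro (⟨h3, _⟩ | ⟨h3, _⟩)
          · exact ha h3
          · exact ha' h3
        simp [h2, ha, ha']
  simp only [h1, Finset.sum_add_distrib, Finset.sum_ite_eq', Finset.sum_ite_irrel,
    Finset.sum_const_zero, Finset.mem_univ, if_true]

open Classical in
/-- The derivative of the sum over the ordered 3-simplices. -/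
theorem quad_deriv {T : Finset (Finset V)} {z : Sym2 V → ℝ} (hz : NondegM T z) (e : Sym2 V) :
    HasDerivAt (fun t => ∑ u : V, ∑ v : V, ∑ x : V, ∑ y : V,
        if ({u, v, x, y} : Finset V) ∈ T then
          √(Function.update z e t s(u, v)) * dih (Function.update z e t) u v x y else 0)
      (∑ u : V, ∑ v : V, ∑ x : V, ∑ y : V, if ({u, v, x, y} : Finset V) ∈ T then
        (if s(u, v) = e then 1 else 0) / (2 * √(z s(u, v))) * dih z u v x y else 0) (z e) := by
  have hupd : Function.update z e (z e) = z := Function.update_eq_self e z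
  have h1 : HasDerivAt (fun t => ∑ u : V, ∑ v : V, ∑ x : V, ∑ y : V,
      (if ({u, v, x, y} : Finset V) ∈ T then
        √(Function.update z e t s(u, v)) * dih (Function.update z e t) u v x y +
        √(Function.update z e t s(u, x)) * dih (Function.update z e t) u x v y +
        √(Function.update z e t s(u, y)) * dih (Function.update z e t) u y v x +
        √(Function.update z e t s(v, x)) * dih (Function.update z e t) v x u y +
        √(Function.update z e t s(v, y)) * dih (Function.update z e t) v y u x +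
        √(Function.update z e t s(x, y)) * dih (Function.update z e t) x y u v else 0))
      (∑ u : V, ∑ v : V, ∑ x : V, ∑ y : V, (if ({u, v, x, y} : Finset V) ∈ T then
        (if s(u, v) = e then 1 else 0) / (2 * √(z s(u, v))) * dih z u v x y +
        (if s(u, x) = e then 1 else 0) / (2 * √(z s(u, x))) * dih z u x v y +
        (if s(u, y) = e then 1 else 0) / (2 * √(z s(u, y))) * dih z u y v x +
        (if s(v, x) = e then 1 else 0) / (2 * √(z s(v, x))) * dih z v x u y +
        (if s(v, y) = e then 1 else 0) / (2 * √(z s(v, y))) * dih z v y u x +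
        (if s(x, y) = e then 1 else 0) / (2 * √(z s(x, y))) * dih z x y u v else 0)) (z e) := by
    refine HasDerivAt.fun_sum fun u _ => HasDerivAt.fun_sum fun v _ =>
      HasDerivAt.fun_sum fun x _ => HasDerivAt.fun_sum fun y _ => ?_
    by_cases h : ({u, v, x, y} : Finset V) ∈ T
    · simp only [if_pos h]
      have hn := hz u v x y h
      have h2 := schlafli (upd_deriv z e s(u, v) (z e)) (upd_deriv z e s(u, x) (z e))
        (upd_deriv z e s(u, y) (z e)) (upd_deriv z e s(v, x) (z e)) (upd_deriv z e s(v, y) (z e))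
        (upd_deriv z e s(x, y) (z e)) (by rw [hupd]; exact hn)
      rw [hupd] at h2
      have h3 := six_eq (fun p : Sym2 V => (if p = e then (1 : ℝ) else 0) / (2 * √(z p))) z u v x y
      have h4 : ∀ t, _ = _ := fun t => six_eq (fun p : Sym2 V => √(Function.update z e t p))
        (Function.update z e t) u v x y
      refine (h2.congr_deriv h3.symm).congr_of_eventuallyEq
        (Filter.Eventually.of_forall fun t => ?_)
      exact h4 t
    · simp only [if_neg h]
      exact hasDerivAt_const _ _
  have h5 := fun t : ℝ => sum_six T (fun u v x y =>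
    √(Function.update z e t s(u, v)) * dih (Function.update z e t) u v x y)
  have h6 := sum_six T (fun u v x y =>
    (if s(u, v) = e then (1 : ℝ) else 0) / (2 * √(z s(u, v))) * dih z u v x y)
  have h7 := (h1.congr_deriv h6).const_mul (1 / 6 : ℝ)
  refine (h7.congr_deriv (by ring)).congr_of_eventuallyEq
    (Filter.Eventually.of_forall fun t => ?_)
  show _ = 1 / 6 * _
  rw [h5 t]
  ring

open Classical in
/-- The derivative of the total length. -/
theorem len_deriv {T : Finset (Finset V)} (hT : ∀ σ ∈ T, σ.card = 4) {z : Sym2 V → ℝ}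
    (hz : NondegM T z) (e : Sym2 V) :
    HasDerivAt (fun t => ∑ u : V, ∑ v : V,
        if IsEdge T u v then √(Function.update z e t s(u, v)) else 0)
      (∑ u : V, ∑ v : V, if IsEdge T u v then
        (if s(u, v) = e then 1 else 0) / (2 * √(z s(u, v))) else 0) (z e) := by
  have hupd : Function.update z e (z e) = z := Function.update_eq_self e z
  refine HasDerivAt.fun_sum fun u _ => HasDerivAt.fun_sum fun v _ => ?_
  by_cases h : IsEdge T u v
  · simp only [if_pos h]
    have h1 := (upd_deriv z e s(u, v) (z e)).sqrt (by rw [hupd]; exact (pos_of_isEdge hT hz h).ne')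
    rw [hupd] at h1
    exact h1
  · simp only [if_neg h]
    exact hasDerivAt_const _ _

/-- The partial derivatives of the total scalar curvature. -/
theorem scal_deriv {T : Finset (Finset V)} (hT : ∀ σ ∈ T, σ.card = 4) {z : Sym2 V → ℝ}
    (hz : NondegM T z) {u v : V} (he : IsEdge T u v) :
    HasDerivAt (fun t => scal T (Function.update z s(u, v) t))
      (curv T z u v / (2 * √(z s(u, v)))) (z s(u, v)) := by
  classical
  have h1 := ((len_deriv hT hz s(u, v)).const_mul (1 / 2 : ℝ)).sub
    ((quad_deriv hz s(u, v)).const_mul (1 / (8 * Real.pi)))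
  refine (h1.congr_deriv ?_).congr_of_eventuallyEq (Filter.Eventually.of_forall fun t => ?_)
  · -- the value
    set K : V → V → ℝ := fun a b => (1 / 2) * (if IsEdge T a b then
      1 / (2 * √(z s(a, b))) else 0) - 1 / (8 * Real.pi) * ∑ x : V, ∑ y : V,
        if ({a, b, x, y} : Finset V) ∈ T then 1 / (2 * √(z s(a, b))) * dih z a b x y else 0 with hK
    have h2 : (1 / 2) * (∑ a : V, ∑ b : V, if IsEdge T a b then
        (if s(a, b) = s(u, v) then 1 else 0) / (2 * √(z s(a, b))) else 0) -
        1 / (8 * Real.pi) * (∑ a : V, ∑ b : V, ∑ x : V, ∑ y : V,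
          if ({a, b, x, y} : Finset V) ∈ T then
          (if s(a, b) = s(u, v) then 1 else 0) / (2 * √(z s(a, b))) * dih z a b x y else 0) =
        ∑ a : V, ∑ b : V, (if s(a, b) = s(u, v) then K a b else 0) := by
      rw [Finset.mul_sum, Finset.mul_sum, ← Finset.sum_sub_distrib]
      refine Finset.sum_congr rfl fun a _ => ?_
      rw [Finset.mul_sum, Finset.mul_sum, ← Finset.sum_sub_distrib]
      refine Finset.sum_congr rfl fun b _ => ?_
      by_cases h : s(a, b) = s(u, v)
      · simp only [hK, if_pos h]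
      · simp only [if_neg h, zero_div, zero_mul, ite_self, Finset.sum_const_zero, mul_zero,
          sub_zero]
    rw [h2, sum_sym2 he.1]
    have h3 : ∀ a b : V, IsEdge T a b → K a b = (1 / 2) * (curv T z a b / (2 * √(z s(a, b)))) := by
      intro a b hab
      have hp := Real.sqrt_pos.2 (pos_of_isEdge hT hz hab)
      have h4 : ∑ x : V, ∑ y : V, (if ({a, b, x, y} : Finset V) ∈ T then
          1 / (2 * √(z s(a, b))) * dih z a b x y else 0) =
          2 * Real.pi * (1 / (2 * √(z s(a, b)))) * ∑ x : V, ∑ y : V,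
            if ({a, b, x, y} : Finset V) ∈ T then dih z a b x y / (2 * Real.pi) else 0 := by
        rw [Finset.mul_sum]
        refine Finset.sum_congr rfl fun x _ => ?_
        rw [Finset.mul_sum]
        refine Finset.sum_congr rfl fun y _ => ?_
        rw [mul_ite, mul_zero]
        congr 1
        field_simp
      simp only [hK, if_pos hab]
      rw [h4]
      unfold curv
      field_simp
      ring
    rw [h3 u v he, h3 v u he.symm, curv_comm T z v u, (Sym2.eq_swap : s(v, u) = s(u, v))]
    ring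
  · exact scal_eq hT _

end Pool.Agent.EPL
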