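import Pool.Agent.EPL.Defs

/-!
# The Schläfli formula for Euclidean tetrahedra

The squared edge lengths of the tetrahedron `u v x y` are `a = uv`, `b = ux`, `c = uy`,
`d = vx`, `e = vy`, `f = xy`.
-/

namespace Pool.Agent.EPL

/-- Sixteen times the squared area of the triangle with squared sides `p, q, r`. -/
def hh (p q r : ℝ) : ℝ := 2 * p * q + 2 * q * r + 2 * r * p - p ^ 2 - q ^ 2 - r ^ 2

/-- `nn a b c d e f` is `16` times the product of the areas of the faces `uvx`, `uvy` and of the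
cosine of the dihedral angle at `uv`. -/
def nn (a b c d e f : ℝ) : ℝ := a * (b + c + d + e - 2 * f - a) - (b - d) * (c - e)

/-- `144` times the squared volume. -/
def vv (a b c d e f : ℝ) : ℝ :=
  a * f * (b + c + d + e - a - f) + b * e * (a + f + c + d - b - e) +
    c * d * (a + f + b + e - c - d) - (a * b * d + a * c * e + b * c * f + d * e * f)

/-- The dihedral angle at the edge with squared length `a`. -/
noncomputable def th (a b c d e f : ℝ) : ℝ :=
  Real.arccos (nn a b c d e f / (√(hh a b d) * √(hh a c e)))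

theorem hh_mul_hh (a b c d e f : ℝ) :
    hh a b d * hh a c e - nn a b c d e f ^ 2 = 4 * a * vv a b c d e f := by
  unfold hh nn vv
  ring

/-- Euclidean nondegenerate tetrahedra. -/
def Nondeg (a b c d e f : ℝ) : Prop :=
  0 < a ∧ 0 < b ∧ 0 < c ∧ 0 < d ∧ 0 < e ∧ 0 < f ∧ 0 < hh a b d ∧ 0 < hh a c e ∧
    0 < hh b c f ∧ 0 < hh d e f ∧ 0 < vv a b c d e f

/-- The derivative of one dihedral angle. -/
theorem angle_deriv {N H G : ℝ → ℝ} {N' H' G' t z w : ℝ} (hN : HasDerivAt N N' t)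
    (hH : HasDerivAt H H' t) (hG : HasDerivAt G G' t) (hH0 : 0 < H t) (hG0 : 0 < G t)
    (hz : 0 < z) (hw : 0 < w) (h : H t * G t - N t ^ 2 = 4 * z * w) :
    HasDerivAt (fun s => Real.arccos (N s / (√(H s) * √(G s))))
      (-(1 / (2 * √z * √w)) * (N' - N t / 2 * (H' / H t + G' / G t))) t := by
  have hsH : 0 < √(H t) := Real.sqrt_pos.2 hH0
  have hsG : 0 < √(G t) := Real.sqrt_pos.2 hG0
  have hsz : 0 < √z := Real.sqrt_pos.2 hz
  have hsw : 0 < √w := Real.sqrt_pos.2 hw
  have eH : √(H t) ^ 2 = H t := Real.sq_sqrt hH0.le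
  have eG : √(G t) ^ 2 = G t := Real.sq_sqrt hG0.le
  have ez : √z ^ 2 = z := Real.sq_sqrt hz.le
  have ew : √w ^ 2 = w := Real.sq_sqrt hw.le
  have hq : HasDerivAt (fun s => N s / (√(H s) * √(G s)))
      ((N' * (√(H t) * √(G t)) - N t * (H' / (2 * √(H t)) * √(G t) +
        √(H t) * (G' / (2 * √(G t))))) / (√(H t) * √(G t)) ^ 2) t :=
    hN.div ((hH.sqrt hH0.ne').mul (hG.sqrt hG0.ne')) (by positivity)
  have hsq : 1 - (N t / (√(H t) * √(G t))) ^ 2 = (2 * √z * √w / (√(H t) * √(G t))) ^ 2 := by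
    rw [div_pow, div_pow, mul_pow, mul_pow, mul_pow, eH, eG, ez, ew]
    field_simp
    linarith
  have hpos : 0 < 2 * √z * √w / (√(H t) * √(G t)) := by positivity
  have hne : N t / (√(H t) * √(G t)) ≠ -1 ∧ N t / (√(H t) * √(G t)) ≠ 1 := by
    constructor
    · intro h1
      rw [h1] at hsq
      have : 0 < (2 * √z * √w / (√(H t) * √(G t))) ^ 2 := by positivity
      linarith
    · intro h1
      rw [h1] at hsq
      have : 0 < (2 * √z * √w / (√(H t) * √(G t))) ^ 2 := by positivity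
      linarith
  have h2 := (Real.hasDerivAt_arccos hne.1 hne.2).comp t hq
  refine h2.congr_deriv ?_
  rw [hsq, Real.sqrt_sq hpos.le]
  have eH' : H t = √(H t) * √(H t) := by rw [← sq, eH]
  have eG' : G t = √(G t) * √(G t) := by rw [← sq, eG]
  have key : ∀ x y : ℝ, 0 < x → 0 < y →
      -(1 / (2 * √z * √w / (x * y))) * ((N' * (x * y) - N t * (H' / (2 * x) * y +
        x * (G' / (2 * y)))) / (x * y) ^ 2) =
      -(1 / (2 * √z * √w)) * (N' - N t / 2 * (H' / (x * x) + G' / (y * y))) := by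
    intro x y hx hy
    field_simp
  rw [key _ _ hsH hsG, ← eH', ← eG']

theorem hh_deriv {p q r : ℝ → ℝ} {p' q' r' t : ℝ} (hp : HasDerivAt p p' t)
    (hq : HasDerivAt q q' t) (hr : HasDerivAt r r' t) :
    HasDerivAt (fun s => hh (p s) (q s) (r s))
      (2 * (p' * q t + p t * q') + 2 * (q' * r t + q t * r') + 2 * (r' * p t + r t * p') -
        2 * p t * p' - 2 * q t * q' - 2 * r t * r') t := by
  have h := (((((hp.mul hq).const_mul 2).add ((hq.mul hr).const_mul 2)).add
    ((hr.mul hp).const_mul 2)).sub (hp.pow 2)).sub (hq.pow 2) |>.sub (hr.pow 2)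
  refine (h.congr_deriv ?_).congr_of_eventuallyEq (Filter.Eventually.of_forall fun s => ?_)
  · push_cast
    ring
  · simp only [hh, Pi.add_apply, Pi.sub_apply, Pi.mul_apply, Pi.pow_apply]
    try ring

theorem nn_deriv {a b c d e f : ℝ → ℝ} {a' b' c' d' e' f' t : ℝ}
    (ha : HasDerivAt a a' t) (hb : HasDerivAt b b' t) (hc : HasDerivAt c c' t)
    (hd : HasDerivAt d d' t) (he : HasDerivAt e e' t) (hf : HasDerivAt f f' t) :
    HasDerivAt (fun s => nn (a s) (b s) (c s) (d s) (e s) (f s))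
      (a' * (b t + c t + d t + e t - 2 * f t - a t) +
        a t * (b' + c' + d' + e' - 2 * f' - a') -
        ((b' - d') * (c t - e t) + (b t - d t) * (c' - e'))) t := by
  have h := (ha.mul (((((hb.add hc).add hd).add he).sub (hf.const_mul 2)).sub ha)).sub
    ((hb.sub hd).mul (hc.sub he))
  refine h.congr_of_eventuallyEq (Filter.Eventually.of_forall fun s => ?_)
  simp only [nn, Pi.add_apply, Pi.sub_apply, Pi.mul_apply]

/-- The Schläfli formula: if the squared edge lengths depend on a parameter, the derivative of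
the sum of the lengths times the angles is the sum of the derivatives of the lengths times the
angles. -/
theorem schlafli {a b c d e f : ℝ → ℝ} {a' b' c' d' e' f' t : ℝ}
    (ha : HasDerivAt a a' t) (hb : HasDerivAt b b' t) (hc : HasDerivAt c c' t)
    (hd : HasDerivAt d d' t) (he : HasDerivAt e e' t) (hf : HasDerivAt f f' t)
    (hn : Nondeg (a t) (b t) (c t) (d t) (e t) (f t)) :
    HasDerivAt (fun s =>
      √(a s) * th (a s) (b s) (c s) (d s) (e s) (f s) +
      √(b s) * th (b s) (a s) (c s) (d s) (f s) (e s) +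
      √(c s) * th (c s) (a s) (b s) (e s) (f s) (d s) +
      √(d s) * th (d s) (a s) (e s) (b s) (f s) (c s) +
      √(e s) * th (e s) (a s) (d s) (c s) (f s) (b s) +
      √(f s) * th (f s) (b s) (d s) (c s) (e s) (a s))
      (a' / (2 * √(a t)) * th (a t) (b t) (c t) (d t) (e t) (f t) +
       b' / (2 * √(b t)) * th (b t) (a t) (c t) (d t) (f t) (e t) +
       c' / (2 * √(c t)) * th (c t) (a t) (b t) (e t) (f t) (d t) +
       d' / (2 * √(d t)) * th (d t) (a t) (e t) (b t) (f t) (c t) +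
       e' / (2 * √(e t)) * th (e t) (a t) (d t) (c t) (f t) (b t) +
       f' / (2 * √(f t)) * th (f t) (b t) (d t) (c t) (e t) (a t)) t := by
  obtain ⟨pa, pb, pc, pd, pe, pf, h1, h2, h3, h4, hv⟩ := hn
  have sym : ∀ x y z : ℝ, hh x y z = hh y x z := fun x y z => by unfold hh; ring
  have sym2 : ∀ x y z : ℝ, hh x y z = hh x z y := fun x y z => by unfold hh; ring
  set w := vv (a t) (b t) (c t) (d t) (e t) (f t) with hw
  -- the four areas and the six angles
  obtain ⟨d1, D1⟩ : ∃ x, HasDerivAt (fun s => hh (a s) (b s) (d s)) x t :=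
    ⟨_, hh_deriv ha hb hd⟩
  obtain ⟨d2, D2⟩ : ∃ x, HasDerivAt (fun s => hh (a s) (c s) (e s)) x t :=
    ⟨_, hh_deriv ha hc he⟩
  obtain ⟨d3, D3⟩ : ∃ x, HasDerivAt (fun s => hh (b s) (c s) (f s)) x t :=
    ⟨_, hh_deriv hb hc hf⟩
  obtain ⟨d4, D4⟩ : ∃ x, HasDerivAt (fun s => hh (d s) (e s) (f s)) x t :=
    ⟨_, hh_deriv hd he hf⟩
  obtain ⟨na, Na⟩ : ∃ x, HasDerivAt (fun s => nn (a s) (b s) (c s) (d s) (e s) (f s)) x t :=
    ⟨_, nn_deriv ha hb hc hd he hf⟩
  obtain ⟨nb, Nb⟩ : ∃ x, HasDerivAt (fun s => nn (b s) (a s) (c s) (d s) (f s) (e s)) x t :=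
    ⟨_, nn_deriv hb ha hc hd hf he⟩
  obtain ⟨nc, Nc⟩ : ∃ x, HasDerivAt (fun s => nn (c s) (a s) (b s) (e s) (f s) (d s)) x t :=
    ⟨_, nn_deriv hc ha hb he hf hd⟩
  obtain ⟨nd, Nd⟩ : ∃ x, HasDerivAt (fun s => nn (d s) (a s) (e s) (b s) (f s) (c s)) x t :=
    ⟨_, nn_deriv hd ha he hb hf hc⟩
  obtain ⟨ne, Ne⟩ : ∃ x, HasDerivAt (fun s => nn (e s) (a s) (d s) (c s) (f s) (b s)) x t :=
    ⟨_, nn_deriv he ha hd hc hf hb⟩
  obtain ⟨nf, Nf⟩ : ∃ x, HasDerivAt (fun s => nn (f s) (b s) (d s) (c s) (e s) (a s)) x t :=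
    ⟨_, nn_deriv hf hb hd hc he ha⟩
  -- the derivatives of the areas are sums of derivatives
  have s1 := (Na.add Nb).add Nd
  have s2 := (Na.add Nc).add Ne
  have s3 := (Nb.add Nc).add Nf
  have s4 := (Nd.add Ne).add Nf
  have t1 := D1.unique (s1.congr_of_eventuallyEq (Filter.Eventually.of_forall fun s => by
    simp only [Pi.add_apply]; unfold hh nn; ring))
  have t2 := D2.unique (s2.congr_of_eventuallyEq (Filter.Eventually.of_forall fun s => by
    simp only [Pi.add_apply]; unfold hh nn; ring))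
  have t3 := D3.unique (s3.congr_of_eventuallyEq (Filter.Eventually.of_forall fun s => by
    simp only [Pi.add_apply]; unfold hh nn; ring))
  have t4 := D4.unique (s4.congr_of_eventuallyEq (Filter.Eventually.of_forall fun s => by
    simp only [Pi.add_apply]; unfold hh nn; ring))
  have da := (angle_deriv Na D1 D2 h1 h2 pa hv
    (hh_mul_hh _ _ _ _ _ _)).congr_of_eventuallyEq
    (f₁ := fun s => th (a s) (b s) (c s) (d s) (e s) (f s))
    (Filter.Eventually.of_forall fun s => rfl)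
  have db := (angle_deriv Nb D1 D3 h1 h3 pb hv
    (by rw [hw]; unfold hh nn vv; ring)).congr_of_eventuallyEq
    (f₁ := fun s => th (b s) (a s) (c s) (d s) (f s) (e s))
    (Filter.Eventually.of_forall fun s => by
      simp only [th]; rw [sym (b s) (a s) (d s)])
  have dc := (angle_deriv Nc D2 D3 h2 h3 pc hv
    (by rw [hw]; unfold hh nn vv; ring)).congr_of_eventuallyEq
    (f₁ := fun s => th (c s) (a s) (b s) (e s) (f s) (d s))
    (Filter.Eventually.of_forall fun s => by
      simp only [th]; rw [sym (c s) (a s) (e s), sym (c s) (b s) (f s)])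
  have dd := (angle_deriv Nd D1 D4 h1 h4 pd hv
    (by rw [hw]; unfold hh nn vv; ring)).congr_of_eventuallyEq
    (f₁ := fun s => th (d s) (a s) (e s) (b s) (f s) (c s))
    (Filter.Eventually.of_forall fun s => by
      simp only [th]; rw [sym (d s) (a s) (b s), sym2 (a s) (d s) (b s)])
  have de := (angle_deriv Ne D2 D4 h2 h4 pe hv
    (by rw [hw]; unfold hh nn vv; ring)).congr_of_eventuallyEq
    (f₁ := fun s => th (e s) (a s) (d s) (c s) (f s) (b s))
    (Filter.Eventually.of_forall fun s => by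
      simp only [th]; rw [sym (e s) (a s) (c s), sym2 (a s) (e s) (c s), sym (e s) (d s) (f s)])
  have df := (angle_deriv Nf D3 D4 h3 h4 pf hv
    (by rw [hw]; unfold hh nn vv; ring)).congr_of_eventuallyEq
    (f₁ := fun s => th (f s) (b s) (d s) (c s) (e s) (a s))
    (Filter.Eventually.of_forall fun s => by
      simp only [th]; rw [sym (f s) (b s) (c s), sym2 (b s) (f s) (c s), sym (f s) (d s) (e s),
        sym2 (d s) (f s) (e s)])
  have key := ((((((ha.sqrt pa.ne').mul da).add ((hb.sqrt pb.ne').mul db)).add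
    ((hc.sqrt pc.ne').mul dc)).add ((hd.sqrt pd.ne').mul dd)).add
    ((he.sqrt pe.ne').mul de)).add ((hf.sqrt pf.ne').mul df)
  refine (key.congr_deriv ?_)
  have sa : 0 < √(a t) := Real.sqrt_pos.2 pa
  have sb : 0 < √(b t) := Real.sqrt_pos.2 pb
  have sc : 0 < √(c t) := Real.sqrt_pos.2 pc
  have sd : 0 < √(d t) := Real.sqrt_pos.2 pd
  have se : 0 < √(e t) := Real.sqrt_pos.2 pe
  have sf : 0 < √(f t) := Real.sqrt_pos.2 pf
  have sw : 0 < √w := Real.sqrt_pos.2 hv
  have cancel : ∀ x X : ℝ, 0 < x → x * (-(1 / (2 * x * √w)) * X) = -(1 / (2 * √w)) * X := by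
    intro x X hx
    field_simp
  rw [cancel _ _ sa, cancel _ _ sb, cancel _ _ sc, cancel _ _ sd, cancel _ _ se, cancel _ _ sf]
  have m1 : nn (a t) (b t) (c t) (d t) (e t) (f t) + nn (b t) (a t) (c t) (d t) (f t) (e t) +
      nn (d t) (a t) (e t) (b t) (f t) (c t) = hh (a t) (b t) (d t) := by unfold hh nn; ring
  have m2 : nn (a t) (b t) (c t) (d t) (e t) (f t) + nn (c t) (a t) (b t) (e t) (f t) (d t) +
      nn (e t) (a t) (d t) (c t) (f t) (b t) = hh (a t) (c t) (e t) := by unfold hh nn; ring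
  have m3 : nn (b t) (a t) (c t) (d t) (f t) (e t) + nn (c t) (a t) (b t) (e t) (f t) (d t) +
      nn (f t) (b t) (d t) (c t) (e t) (a t) = hh (b t) (c t) (f t) := by unfold hh nn; ring
  have m4 : nn (d t) (a t) (e t) (b t) (f t) (c t) + nn (e t) (a t) (d t) (c t) (f t) (b t) +
      nn (f t) (b t) (d t) (c t) (e t) (a t) = hh (d t) (e t) (f t) := by unfold hh nn; ring
  have q : ∀ D H X Y Z : ℝ, 0 < H → X + Y + Z = H → (X + Y + Z) * (D / H) = D := by
    intro D H X Y Z hH hX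
    rw [hX]
    field_simp
  have q1 := q d1 _ _ _ _ h1 m1
  have q2 := q d2 _ _ _ _ h2 m2
  have q3 := q d3 _ _ _ _ h3 m3
  have q4 := q d4 _ _ _ _ h4 m4
  linear_combination (1 / (2 * √w)) * (1 / 2) * (q1 + q2 + q3 + q4 + t1 + t2 + t3 + t4)

end Pool.Agent.EPL
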